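import Pool.Agent.Helper9.SID.Closed

/-! The main theorem on covers and maps. -/

open Set Topology TopologicalSpace

namespace Pool.Agent.Helper9.SID

universe u v

/-- Countable unions of subspaces each of which is a totally disconnected G-delta subspace, or
empty, or zero-dimensional. -/
def SmallBase (B : Type u) [TopologicalSpace B] : Prop :=
  ∃ D : ℕ → Set B, (⋃ i, D i) = univ ∧ ∀ i, (IsGδ (D i) ∧ TotallyDisconnectedSpace (D i)) ∨
    ((D i).Nonempty → ZeroDim (D i))

/-- Separable metrizable spaces (or spaces homeomorphic to subsets of such) that admit a continuous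
map `g` to a small base such that either `g` is closed and every fibre is compact or satisfies
the assertion of Q1, or every fibre is countable-dimensional or tame. -/
def Reducible (Z : Type u) [TopologicalSpace Z] : Prop :=
  ∃ (B : Type u) (_ : TopologicalSpace B) (_ : MetrizableSpace B)
    (_ : SecondCountableTopology B) (g : Z → B), SmallBase B ∧ Continuous g ∧
    ((IsClosedMap g ∧ ∀ b, IsCompact (g ⁻¹' {b}) ∨ Q1Holds (g ⁻¹' {b})) ∨
      ∀ b, CountableDim (g ⁻¹' {b}) ∨ Tame (g ⁻¹' {b}))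

section

variable {X : Type u} [TopologicalSpace X]

theorem SmallBase.sigmaTD [MetrizableSpace X] [SecondCountableTopology X]
    (h : SmallBase X) : SigmaTD X := by
  obtain ⟨D, hD1, hD2⟩ := h
  have key : ∀ i, ∃ E : Set X, D i ⊆ E ∧ IsGδ E ∧ TotallyDisconnectedSpace E := by
    intro i
    rcases hD2 i with h0 | h0
    · exact ⟨D i, subset_rfl, h0⟩
    · rcases (D i).eq_empty_or_nonempty with h1 | h1
      · refine ⟨∅, by rw [h1], IsGδ.empty, ?_⟩
        exact ⟨fun S _ _ x => (x.2).elim⟩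
      · obtain ⟨E, h2, h3, h4⟩ := exists_gdelta_zeroDim (D i) (h0 h1).2
        refine ⟨E, h2, h3, td_of_zeroDim ⟨?_, h4⟩⟩
        obtain ⟨x, hx⟩ := h1
        exact ⟨⟨x, h2 hx⟩⟩
  choose E h1 h2 h3 using key
  refine ⟨E, ?_, fun i => ⟨h2 i, h3 i⟩⟩
  rw [Set.eq_univ_iff_forall]
  intro x
  have hx : x ∈ ⋃ i, D i := by rw [hD1]; trivial
  obtain ⟨i, hi⟩ := mem_iUnion.mp hx
  exact mem_iUnion.mpr ⟨i, h1 i hi⟩

theorem tame_of_countableDim [MetrizableSpace X] [SecondCountableTopology X] {F : Set X}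
    (h : CountableDim F) : Tame F := by
  refine tame_of_no_sid fun S hS hsid => ?_
  have e1 : (Subtype.val '' (Subtype.val ⁻¹' S : Set F) : Set X) = S := by
    rw [Subtype.image_preimage_coe]
    exact inter_eq_right.mpr hS
  exact h.not_sid (Subtype.val ⁻¹' S)
    ((hsid.homeo (Homeomorph.setCongr e1.symm)).homeo (homeoImage _ _).symm)

theorem Reducible.q1 [MetrizableSpace X] [SecondCountableTopology X] (h : Reducible X) :
    Q1Holds X := by
  obtain ⟨B, _, _, _, g, hB, hg, hf⟩ := h
  rcases hf with ⟨hc, hf⟩ | hf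
  · exact q1_of_closed X B hB.sigmaTD g hg hc hf
  · refine q1_of_sigma X B hB.sigmaTD g hg (Or.inr fun b => ?_)
    rcases hf b with h1 | h1
    · exact tame_of_countableDim h1
    · exact h1

/-- The main theorem. -/
theorem q1_main (X : Type u) [TopologicalSpace X] [MetrizableSpace X]
    [SecondCountableTopology X] (Z : ℕ → Set X) (hs : StronglyInfDim (⋃ n, Z n : Set X))
    (hZ : ∀ n, ¬ StronglyInfDim (Z n) ∨ (IsGδ (Z n) ∧ Reducible (Z n))) :
    ∃ Y : Set X, (∃ n, Y ⊆ Z n) ∧ IsGδ Y ∧ StronglyInfDim Y ∧ TotallyDisconnectedSpace Y ∧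
      HeredSID Y := by
  refine q1_cover X Z hs fun n => ?_
  rcases hZ n with h1 | ⟨h1, h2⟩
  · exact Or.inl h1
  · exact Or.inr ⟨h1, h2.q1⟩

end

end Pool.Agent.Helper9.SID
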