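import Pool.Agent.Helper9.SID.Dim

/-! Closed maps. -/

open Set Topology TopologicalSpace Filter

namespace Pool.Agent.Helper9.SID

universe u v

section

/-- The Vainstein lemma: boundaries of fibres of closed maps are compact. -/
theorem isCompact_frontier_fibre {X : Type u} {B : Type v} [MetricSpace X] [MetricSpace B]
    {g : X → B} (hg : Continuous g) (hc : IsClosedMap g) (b : B) :
    IsCompact (frontier (g ⁻¹' {b})) := by
  refine IsSeqCompact.isCompact ?_
  intro x hx
  by_contra hcon
  have hfc : IsClosed (g ⁻¹' {b}) := isClosed_singleton.preimage hg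
  have hpos : ∀ n : ℕ, (0 : ℝ) < 1 / ((n : ℝ) + 1) := fun n => by positivity
  have hy : ∀ n, ∃ y, g y ≠ b ∧ dist y (x n) < 1 / ((n : ℝ) + 1) ∧
      dist (g y) b < 1 / ((n : ℝ) + 1) := by
    intro n
    have h1 := hx n
    rw [frontier_eq_closure_inter_closure, hfc.closure_eq] at h1
    have h2 : g (x n) = b := h1.1
    have hN : Metric.ball (x n) (1 / ((n : ℝ) + 1)) ∩ g ⁻¹' Metric.ball b (1 / ((n : ℝ) + 1)) ∈
        𝓝 (x n) := by
      refine inter_mem (Metric.ball_mem_nhds _ (hpos n)) ?_
      refine (Metric.isOpen_ball.preimage hg).mem_nhds ?_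
      show g (x n) ∈ Metric.ball b (1 / ((n : ℝ) + 1))
      rw [h2]
      exact Metric.mem_ball_self (hpos n)
    obtain ⟨y, hy1, hy2⟩ := mem_closure_iff_nhds.mp h1.2 _ hN
    exact ⟨y, hy2, hy1.1, hy1.2⟩
  choose y hy1 hy2 hy3 using hy
  have hd0 : Tendsto (fun n => dist (y n) (x n)) atTop (𝓝 0) :=
    squeeze_zero (fun n => dist_nonneg) (fun n => (hy2 n).le) tendsto_one_div_add_atTop_nhds_zero_nat
  have hg0 : Tendsto (fun n => g (y n)) atTop (𝓝 b) := by
    rw [tendsto_iff_dist_tendsto_zero]
    exact squeeze_zero (fun n => dist_nonneg) (fun n => (hy3 n).le)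
      tendsto_one_div_add_atTop_nhds_zero_nat
  have hncl : ∀ z, ¬ MapClusterPt z atTop y := by
    intro z hz
    obtain ⟨ψ, hψ, hlim⟩ := hz.tendsto_subseq
    have h1 : Tendsto (x ∘ ψ) atTop (𝓝 z) := by
      rw [tendsto_iff_dist_tendsto_zero] at hlim ⊢
      have h2 := (hd0.comp hψ.tendsto_atTop).add hlim
      rw [add_zero] at h2
      refine squeeze_zero (fun n => dist_nonneg) (fun n => ?_) h2
      exact dist_triangle_left _ _ _
    exact hcon ⟨z, isClosed_frontier.mem_of_tendsto h1 (Eventually.of_forall fun n => hx _),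
      ψ, hψ, h1⟩
  have hcl : IsClosed (range y) := by
    refine isClosed_of_closure_subset fun z hz => ?_
    have h1 := hncl z
    rw [mapClusterPt_iff_frequently] at h1
    push Not at h1
    obtain ⟨U, hU, hU2⟩ := h1
    rw [eventually_atTop] at hU2
    obtain ⟨N, hN⟩ := hU2
    have h2 : z ∈ closure (y '' (Finset.range N : Set ℕ)) := by
      rw [mem_closure_iff_nhds]
      intro V hV
      obtain ⟨w, hw1, n, rfl⟩ := mem_closure_iff_nhds.mp hz (U ∩ V) (inter_mem hU hV)
      refine ⟨y n, hw1.2, n, ?_, rfl⟩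
      by_contra hn
      exact hN n (by simpa using hn) hw1.1
    have h3 : IsClosed (y '' (Finset.range N : Set ℕ)) :=
      ((Finset.finite_toSet _).image y).isClosed
    rw [h3.closure_eq] at h2
    obtain ⟨n, -, rfl⟩ := h2
    exact mem_range_self n
  have h4 : b ∈ closure (g '' range y) :=
    mem_closure_of_tendsto hg0 (Eventually.of_forall fun n => ⟨y n, mem_range_self n, rfl⟩)
  rw [(hc _ hcl).closure_eq] at h4
  obtain ⟨_, ⟨n, rfl⟩, hn⟩ := h4
  exact hy1 n hn

variable {X : Type u} [TopologicalSpace X]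

/-- The conclusion of Q1 inside a subset. -/
def Conc (Z : Set X) : Prop :=
  ∃ Y : Set X, Y ⊆ Z ∧ IsGδ Y ∧ StronglyInfDim Y ∧ TotallyDisconnectedSpace Y ∧ HeredSID Y

theorem Conc.mono {Z Z' : Set X} (h : Conc Z) (hZ : Z ⊆ Z') : Conc Z' := by
  obtain ⟨Y, h1, h2⟩ := h
  exact ⟨Y, h1.trans hZ, h2⟩

/-- Closed strongly infinite-dimensional subspaces. -/
theorem sid_of_closed {E : Set X} (hE : IsClosed E) (h : StronglyInfDim E) :
    StronglyInfDim X := by
  obtain ⟨A, B, h1, h2⟩ := h
  refine ⟨fun i => Subtype.val '' A i, fun i => Subtype.val '' B i, fun i =>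
    ⟨hE.isClosedEmbedding_subtypeVal.isClosedMap _ (h1 i).1,
      hE.isClosedEmbedding_subtypeVal.isClosedMap _ (h1 i).2.1,
      (disjoint_image_iff Subtype.val_injective).mpr (h1 i).2.2⟩, fun L hL => ?_⟩
  obtain ⟨x, hx⟩ := h2 (fun i => Subtype.val ⁻¹' L i) (fun i => by
    have := (hL i).preimage (continuous_subtype_val (p := fun x => x ∈ E))
    simpa only [preimage_image_eq _ Subtype.val_injective] using this)
  exact ⟨x.1, by simpa using hx⟩

/-- The sum theorem for subsets of the space. -/
theorem sid_sum_sets [CompletelyNormalSpace X] (Z : ℕ → Set X)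
    (hs : StronglyInfDim (⋃ n, Z n : Set X)) : ∃ n, StronglyInfDim (Z n) := by
  obtain ⟨n, hn⟩ := sid_sum hs (fun n => (Subtype.val ⁻¹' Z n : Set (⋃ n, Z n : Set X)))
    (by
      rw [← preimage_iUnion]
      exact Subtype.coe_preimage_self _)
  have e1 : (Subtype.val '' (Subtype.val ⁻¹' Z n : Set (⋃ n, Z n : Set X)) : Set X) = Z n := by
    rw [Subtype.image_preimage_coe]
    exact inter_eq_right.mpr (subset_iUnion Z n)
  have h1 := hn.homeo (homeoImage (⋃ n, Z n : Set X) (Subtype.val ⁻¹' Z n))
  exact ⟨n, h1.homeo (Homeomorph.setCongr e1)⟩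

theorem q1_of_compact (X : Type u) [TopologicalSpace X] [MetrizableSpace X]
    [SecondCountableTopology X] [CompactSpace X] : Q1Holds X :=
  q1_of_proper_td X PUnit.{u + 1} (fun _ => PUnit.unit)
    (isProperMap_const (X := X) (PUnit.unit : PUnit.{u + 1}))

theorem sigmaTD_of_td (B : Type u) [TopologicalSpace B] [TotallyDisconnectedSpace B] :
    SigmaTD B :=
  ⟨fun _ => univ, by rw [iUnion_const], fun _ => ⟨IsGδ.univ, td_sub univ⟩⟩

/-- Q1 passes from the fibres to the domain under closed maps to countable unions of totally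
disconnected G-delta subspaces. -/
theorem q1_of_closed (X : Type u) [TopologicalSpace X] [MetrizableSpace X]
    [SecondCountableTopology X] (B : Type v) [TopologicalSpace B] [MetrizableSpace B]
    (hB : SigmaTD B) (g : X → B) (hg : Continuous g) (hc : IsClosedMap g)
    (hf : ∀ b, IsCompact (g ⁻¹' {b}) ∨ Q1Holds (g ⁻¹' {b})) : Q1Holds X := by
  intro hX
  let _ := metrizableSpaceMetric X
  let _ := metrizableSpaceMetric B
  let X0 : Set X := {x | x ∉ interior (g ⁻¹' {g x})}
  have hX0c : IsClosed X0 := by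
    have e : X0 = {x | x ∈ interior (g ⁻¹' {g x})}ᶜ := rfl
    rw [e, isClosed_compl_iff, isOpen_iff_mem_nhds]
    intro x hx
    refine mem_of_superset (isOpen_interior.mem_nhds hx) fun y hy => ?_
    have h1 : g y = g x := by
      have h0 : y ∈ g ⁻¹' {g x} := interior_subset hy
      exact h0
    show y ∈ interior (g ⁻¹' {g y})
    rw [h1]
    exact hy
  -- enumerate the fibres with nonempty interior
  let S : Set B := {b | (interior (g ⁻¹' {b})).Nonempty}
  have hScount : S.Countable := by
    have hd : S.PairwiseDisjoint fun b => interior (g ⁻¹' {b}) := by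
      intro b _ b' _ hbb
      refine Set.disjoint_left.mpr fun x hx hx' => hbb ?_
      have h1 : g x = b := by
        have h0 : x ∈ g ⁻¹' {b} := interior_subset hx
        exact h0
      have h2 : g x = b' := by
        have h0 : x ∈ g ⁻¹' {b'} := interior_subset hx'
        exact h0
      exact h1.symm.trans h2
    exact hd.countable_of_isOpen (fun _ _ => isOpen_interior) fun b hb => hb
  rcases isEmpty_or_nonempty X with hemp | hne
  · exfalso
    obtain ⟨A, B', h1, h2⟩ := hX
    obtain ⟨x, -⟩ := h2 (fun _ => ∅) (fun i => ⟨isClosed_empty, ∅, ∅, isOpen_empty, isOpen_empty,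
      disjoint_bot_left, (Set.eq_empty_of_isEmpty (A i)).subset,
      (Set.eq_empty_of_isEmpty (B' i)).subset,
      (Set.eq_empty_of_isEmpty _).trans (Set.union_self _).symm⟩)
    exact hemp.elim x
  obtain ⟨x0⟩ := hne
  obtain ⟨t, ht⟩ := (hScount.insert (g x0)).exists_eq_range (insert_nonempty _ _)
  let Z : ℕ → Set X := fun n => match n with
    | 0 => X0
    | n + 1 => interior (g ⁻¹' {t n})
  have hcov : (⋃ n, Z n : Set X) = univ := by
    rw [Set.eq_univ_iff_forall]
    intro x
    by_cases hx : x ∈ interior (g ⁻¹' {g x})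
    · have h1 : g x ∈ insert (g x0) S := mem_insert_of_mem _ ⟨x, hx⟩
      rw [ht] at h1
      obtain ⟨n, hn⟩ := h1
      refine mem_iUnion.mpr ⟨n + 1, ?_⟩
      show x ∈ interior (g ⁻¹' {t n})
      rw [hn]
      exact hx
    · exact mem_iUnion.mpr ⟨0, hx⟩
  obtain ⟨n, hn⟩ := sid_sum_sets Z (by rw [hcov]; exact hX.homeo (Homeomorph.Set.univ X).symm)
  have hconc : Conc (univ : Set X) := by
    rcases n with _ | n
    · have hn0 : StronglyInfDim X0 := hn
      have hprop : IsProperMap (fun z : X0 => g z.1) := by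
        rw [isProperMap_iff_isClosedMap_and_compact_fibers]
        refine ⟨hg.comp continuous_subtype_val,
          hc.comp hX0c.isClosedEmbedding_subtypeVal.isClosedMap, fun b => ?_⟩
        rw [hX0c.isClosedEmbedding_subtypeVal.isEmbedding.isCompact_iff]
        refine (isCompact_frontier_fibre hg hc b).of_isClosed_subset ?_ ?_
        · exact hX0c.isClosedEmbedding_subtypeVal.isClosedMap _
            (isClosed_singleton.preimage (hg.comp continuous_subtype_val))
        · rintro _ ⟨z, hz, rfl⟩
          have h1 : g z.1 = b := hz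
          refine ⟨subset_closure h1, ?_⟩
          have h2 := z.2
          show z.1 ∉ interior (g ⁻¹' {b})
          rw [← h1]
          exact h2
      have hq := q1_of_sigma X0 B hB (fun z : X0 => g z.1) (hg.comp continuous_subtype_val)
        (Or.inl hprop)
      obtain ⟨Y, -, hY⟩ := q1_of_sub hX0c.isGδ hn0 hq
      exact ⟨Y, subset_univ Y, hY⟩
    · have hn1 : StronglyInfDim (interior (g ⁻¹' {t n}) : Set X) := hn
      obtain ⟨F, hF1, hF2, hF3, -⟩ := (isOpen_interior (s := g ⁻¹' {t n})).exists_iUnion_isClosed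
      obtain ⟨m, hm⟩ := sid_sum_sets F (by rw [hF3]; exact hn1)
      have hfc : IsClosed (g ⁻¹' {t n}) := isClosed_singleton.preimage hg
      have hsub : F m ⊆ g ⁻¹' {t n} := (hF2 m).trans interior_subset
      have hfs : StronglyInfDim (g ⁻¹' {t n} : Set X) := by
        refine sid_of_closed (E := Subtype.val ⁻¹' F m)
          ((hF1 m).preimage continuous_subtype_val) ?_
        have e1 : (Subtype.val '' (Subtype.val ⁻¹' F m : Set (g ⁻¹' {t n})) : Set X) = F m := by
          rw [Subtype.image_preimage_coe]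
          exact inter_eq_right.mpr hsub
        exact (hm.homeo (Homeomorph.setCongr e1.symm)).homeo (homeoImage _ _).symm
      have hq : Q1Holds (g ⁻¹' {t n} : Set X) := by
        rcases hf (t n) with h1 | h1
        · have : CompactSpace (g ⁻¹' {t n} : Set X) := isCompact_iff_compactSpace.mp h1
          exact q1_of_compact _
        · exact h1
      obtain ⟨Y, -, hY⟩ := q1_of_sub hfc.isGδ hfs hq
      exact ⟨Y, subset_univ Y, hY⟩
  obtain ⟨Y, -, hY⟩ := hconc
  exact ⟨Y, hY⟩

end

end Pool.Agent.Helper9.SID
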