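import Mathlib

/-! Strongly infinite-dimensional spaces: definitions and partition extension lemmas. -/

open Set Topology TopologicalSpace

namespace Pool.Agent.Helper9.SID

universe u v

/-- `L` is a partition between `A` and `B`: `L` is closed and its complement is the union of two
disjoint open sets containing `A` and `B`. -/
def IsPartition {X : Type u} [TopologicalSpace X] (A B L : Set X) : Prop :=
  IsClosed L ∧ ∃ U V : Set X, IsOpen U ∧ IsOpen V ∧ Disjoint U V ∧ A ⊆ U ∧ B ⊆ V ∧ Lᶜ = U ∪ V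

/-- Strongly infinite-dimensional spaces. -/
def StronglyInfDim (X : Type u) [TopologicalSpace X] : Prop :=
  ∃ A B : ℕ → Set X, (∀ i, IsClosed (A i) ∧ IsClosed (B i) ∧ Disjoint (A i) (B i)) ∧
    ∀ L : ℕ → Set X, (∀ i, IsPartition (A i) (B i) (L i)) → (⋂ i, L i).Nonempty

/-- A nonempty space with a base of clopen sets. -/
def ZeroDim (X : Type u) [TopologicalSpace X] : Prop :=
  Nonempty X ∧ IsTopologicalBasis {s : Set X | IsClopen s}

/-- Every nonempty subset is zero-dimensional or strongly infinite-dimensional. -/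
def HeredSID (Y : Type u) [TopologicalSpace Y] : Prop :=
  ∀ S : Set Y, S.Nonempty → ZeroDim S ∨ StronglyInfDim S

/-- A countable union of subspaces each of which is empty or zero-dimensional. -/
def CountableDim (B : Type u) [TopologicalSpace B] : Prop :=
  ∃ D : ℕ → Set B, (⋃ i, D i) = univ ∧ ∀ i, (D i).Nonempty → ZeroDim (D i)

/-- The assertion of Q1 for one space `X`. -/
def Q1Holds (X : Type u) [TopologicalSpace X] : Prop :=
  StronglyInfDim X → ∃ Y : Set X, IsGδ Y ∧ StronglyInfDim Y ∧ TotallyDisconnectedSpace Y ∧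
    HeredSID Y

section basic

variable {X : Type u} [TopologicalSpace X]

theorem IsPartition.of_open {A B U V : Set X} (hU : IsOpen U) (hV : IsOpen V)
    (hd : Disjoint U V) (hA : A ⊆ U) (hB : B ⊆ V) : IsPartition A B (U ∪ V)ᶜ :=
  ⟨(hU.union hV).isClosed_compl, U, V, hU, hV, hd, hA, hB, compl_compl _⟩

theorem IsPartition.mono {A B A' B' L : Set X} (h : IsPartition A B L) (hA : A' ⊆ A)
    (hB : B' ⊆ B) : IsPartition A' B' L := by
  obtain ⟨hc, U, V, hU, hV, hd, h1, h2, h3⟩ := h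
  exact ⟨hc, U, V, hU, hV, hd, hA.trans h1, hB.trans h2, h3⟩

theorem IsPartition.preimage {Y : Type v} [TopologicalSpace Y] {A B L : Set Y} {f : X → Y}
    (hf : Continuous f) (h : IsPartition A B L) : IsPartition (f ⁻¹' A) (f ⁻¹' B) (f ⁻¹' L) := by
  obtain ⟨hc, U, V, hU, hV, hd, h1, h2, h3⟩ := h
  refine ⟨hc.preimage hf, f ⁻¹' U, f ⁻¹' V, hU.preimage hf, hV.preimage hf, hd.preimage f,
    preimage_mono h1, preimage_mono h2, ?_⟩
  rw [← preimage_compl, h3, preimage_union]

theorem StronglyInfDim.homeo {Y : Type v} [TopologicalSpace Y] (h : StronglyInfDim X)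
    (e : X ≃ₜ Y) : StronglyInfDim Y := by
  obtain ⟨A, B, h1, h2⟩ := h
  refine ⟨fun i => e.symm ⁻¹' A i, fun i => e.symm ⁻¹' B i, fun i =>
    ⟨(h1 i).1.preimage e.symm.continuous, (h1 i).2.1.preimage e.symm.continuous,
      (h1 i).2.2.preimage _⟩, fun L hL => ?_⟩
  obtain ⟨x, hx⟩ := h2 (fun i => e ⁻¹' L i) (fun i => by
    have := (hL i).preimage e.continuous
    simpa only [← preimage_comp, e.symm_comp_self, preimage_id] using this)
  exact ⟨e x, by simpa using hx⟩

theorem ZeroDim.homeo {Y : Type v} [TopologicalSpace Y] (h : ZeroDim X)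
    (e : X ≃ₜ Y) : ZeroDim Y := by
  obtain ⟨⟨x⟩, h2⟩ := h
  refine ⟨⟨e x⟩, ?_⟩
  refine isTopologicalBasis_of_isOpen_of_nhds (fun s hs => hs.isOpen) (fun a s ha hs => ?_)
  obtain ⟨v, hv, hav, hvs⟩ := h2.exists_subset_of_mem_open (a := e.symm a) (u := e ⁻¹' s)
    (by simpa using ha) (hs.preimage e.continuous)
  refine ⟨e.symm ⁻¹' v, hv.preimage e.symm.continuous, hav, ?_⟩
  intro y hy
  have := hvs hy
  simpa using this

theorem HeredSID.homeo {Y : Type v} [TopologicalSpace Y] (h : HeredSID X)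
    (e : X ≃ₜ Y) : HeredSID Y := by
  intro S hS
  have e' : (e ⁻¹' S : Set X) ≃ₜ S := by
    refine (e.isEmbedding.homeomorphImage (e ⁻¹' S)).trans (Homeomorph.setCongr ?_)
    exact image_preimage_eq S e.surjective
  rcases h (e ⁻¹' S) (hS.preimage e.surjective) with h | h
  · exact Or.inl (h.homeo e')
  · exact Or.inr (h.homeo e')

theorem totallyDisconnectedSpace_homeo {Y : Type v} [TopologicalSpace Y]
    (h : TotallyDisconnectedSpace X) (e : X ≃ₜ Y) : TotallyDisconnectedSpace Y :=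
  e.totallyDisconnectedSpace

end basic

section extend

variable {X : Type u} [TopologicalSpace X]

/-- Disjoint open subsets of a subspace extend to disjoint open subsets. -/
theorem exists_open_ext [CompletelyNormalSpace X] (Z : Set X) {U V : Set Z} (hU : IsOpen U)
    (hV : IsOpen V) (hd : Disjoint U V) :
    ∃ G H : Set X, IsOpen G ∧ IsOpen H ∧ Disjoint G H ∧
      (Subtype.val ⁻¹' G : Set Z) = U ∧ (Subtype.val ⁻¹' H : Set Z) = V := by
  obtain ⟨G0, hG0, rfl⟩ := isOpen_induced_iff.mp hU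
  obtain ⟨H0, hH0, rfl⟩ := isOpen_induced_iff.mp hV
  have hdis : ∀ x ∈ Z, x ∈ G0 → x ∈ H0 → False := by
    intro x hx h1 h2
    exact Set.disjoint_left.mp hd (show (⟨x, hx⟩ : Z) ∈ Subtype.val ⁻¹' G0 from h1) h2
  have h1 : Disjoint (closure (Z ∩ G0)) (Z ∩ H0) := by
    rw [Set.disjoint_left]
    intro x hx hx2
    obtain ⟨y, hy1, hy2⟩ := mem_closure_iff.mp hx H0 hH0 hx2.2
    exact hdis y hy2.1 hy2.2 hy1
  have h2 : Disjoint (Z ∩ G0) (closure (Z ∩ H0)) := by
    rw [Set.disjoint_right]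
    intro x hx hx2
    obtain ⟨y, hy1, hy2⟩ := mem_closure_iff.mp hx G0 hG0 hx2.2
    exact hdis y hy2.1 hy1 hy2.2
  obtain ⟨G1, H1, hG1, hH1, hs, ht, hGH⟩ := separatedNhds_iff_disjoint.mpr
    (completely_normal h1 h2)
  refine ⟨G0 ∩ G1, H0 ∩ H1, hG0.inter hG1, hH0.inter hH1,
    hGH.mono inter_subset_right inter_subset_right, ?_, ?_⟩
  · ext z
    simp only [mem_preimage, mem_inter_iff, and_iff_left_iff_imp]
    exact fun h => hs ⟨z.2, h⟩
  · ext z
    simp only [mem_preimage, mem_inter_iff, and_iff_left_iff_imp]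
    exact fun h => ht ⟨z.2, h⟩

/-- Partitions of a subspace between closed neighbourhoods extend to the whole space. -/
theorem exists_partition_ext [CompletelyNormalSpace X] (Z : Set X) {A B NA NB : Set X}
    (hA : A ⊆ NA) (hB : B ⊆ NB) (hNA : IsOpen NA) (hNB : IsOpen NB)
    (hd : Disjoint (closure NA) (closure NB)) {L : Set Z}
    (hL : IsPartition (Subtype.val ⁻¹' closure NA : Set Z) (Subtype.val ⁻¹' closure NB) L) :
    ∃ L' : Set X, IsPartition A B L' ∧ ∀ z : Z, (z : X) ∈ L' → z ∈ L := by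
  obtain ⟨hc, U, V, hU, hV, hUV, h1, h2, h3⟩ := hL
  obtain ⟨G, H, hG, hH, hGH, rfl, rfl⟩ := exists_open_ext Z hU hV hUV
  have e1 : IsOpen ((G ∪ NA) \ closure NB) := (hG.union hNA).sdiff isClosed_closure
  have e2 : IsOpen ((H ∪ NB) \ closure NA) := (hH.union hNB).sdiff isClosed_closure
  refine ⟨((G ∪ NA) \ closure NB ∪ (H ∪ NB) \ closure NA)ᶜ, IsPartition.of_open e1 e2 ?_ ?_ ?_,
    ?_⟩
  · rw [Set.disjoint_left]
    rintro x ⟨h4 | h4, h5⟩ ⟨h6 | h6, h7⟩
    · exact Set.disjoint_left.mp hGH h4 h6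
    · exact h5 (subset_closure h6)
    · exact h7 (subset_closure h4)
    · exact h5 (subset_closure h6)
  · intro x hx
    exact ⟨Or.inr (hA hx), Set.disjoint_left.mp hd (subset_closure (hA hx))⟩
  · intro x hx
    exact ⟨Or.inr (hB hx), Set.disjoint_right.mp hd (subset_closure (hB hx))⟩
  · intro z hz
    by_contra hzL
    have hz2 : z ∈ Lᶜ := hzL
    rw [h3] at hz2
    apply hz
    rcases hz2 with hz3 | hz3
    · left
      refine ⟨Or.inl hz3, fun h8 => ?_⟩
      have h9 : z ∈ (Subtype.val ⁻¹' H : Set Z) := h2 h8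
      exact Set.disjoint_left.mp hGH hz3 h9
    · right
      refine ⟨Or.inl hz3, fun h8 => ?_⟩
      have h9 : z ∈ (Subtype.val ⁻¹' G : Set Z) := h1 h8
      exact Set.disjoint_left.mp hGH h9 hz3

/-- An essential family together with open neighbourhoods with disjoint closures. -/
structure EssFam (X : Type u) [TopologicalSpace X] where
  /-- the first sets -/
  A : ℕ → Set X
  /-- the second sets -/
  B : ℕ → Set X
  /-- neighbourhoods of the first sets -/
  NA : ℕ → Set X
  /-- neighbourhoods of the second sets -/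
  NB : ℕ → Set X
  hA : ∀ i, A i ⊆ NA i
  hB : ∀ i, B i ⊆ NB i
  oA : ∀ i, IsOpen (NA i)
  oB : ∀ i, IsOpen (NB i)
  disj : ∀ i, Disjoint (closure (NA i)) (closure (NB i))

/-- The family is essential. -/
def EssFam.Ess {X : Type u} [TopologicalSpace X] (F : EssFam X) : Prop :=
  ∀ L : ℕ → Set X, (∀ i, IsPartition (F.A i) (F.B i) (L i)) → (⋂ i, L i).Nonempty

theorem exists_essFam [NormalSpace X] (h : StronglyInfDim X) :
    ∃ F : EssFam X, (∀ i, IsClosed (F.A i)) ∧ (∀ i, IsClosed (F.B i)) ∧ F.Ess := by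
  obtain ⟨A, B, h1, h2⟩ := h
  have key : ∀ i, ∃ NA NB : Set X, A i ⊆ NA ∧ B i ⊆ NB ∧ IsOpen NA ∧ IsOpen NB ∧
      Disjoint (closure NA) (closure NB) := by
    intro i
    obtain ⟨hA, hB, hd⟩ := h1 i
    obtain ⟨NB, hNB, hB2, hB3⟩ := normal_exists_closure_subset hB hA.isOpen_compl
      (Set.subset_compl_iff_disjoint_left.mpr hd)
    have hd2 : A i ⊆ (closure NB)ᶜ := by
      intro x hx hx2
      exact hB3 hx2 hx
    obtain ⟨NA, hNA, hA2, hA3⟩ := normal_exists_closure_subset hA isClosed_closure.isOpen_compl hd2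
    refine ⟨NA, NB, hA2, hB2, hNA, hNB, ?_⟩
    rw [Set.disjoint_left]
    exact fun x hx => hA3 hx
  choose NA NB k1 k2 k3 k4 k5 using key
  exact ⟨⟨A, B, NA, NB, k1, k2, k3, k4, k5⟩, fun i => (h1 i).1, fun i => (h1 i).2.1, h2⟩

/-- If a subspace is not strongly infinite-dimensional then partitions with no common point on the
subspace exist in the whole space, for every family with neighbourhoods. -/
theorem not_sid_sub (Z : Set X) (hZ : ¬ StronglyInfDim Z) (NA NB : ℕ → Set X)
    (hd : ∀ i, Disjoint (closure (NA i)) (closure (NB i))) :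
    ∃ L : ℕ → Set Z, (∀ i, IsPartition (Subtype.val ⁻¹' closure (NA i) : Set Z)
      (Subtype.val ⁻¹' closure (NB i)) (L i)) ∧ (⋂ i, L i) = ∅ := by
  by_contra hcon
  apply hZ
  refine ⟨fun i => Subtype.val ⁻¹' closure (NA i), fun i => Subtype.val ⁻¹' closure (NB i),
    fun i => ⟨isClosed_closure.preimage continuous_subtype_val,
      isClosed_closure.preimage continuous_subtype_val, (hd i).preimage _⟩, fun L hL => ?_⟩
  by_contra hne
  exact hcon ⟨L, hL, Set.not_nonempty_iff_eq_empty.mp hne⟩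

/-- The countable sum theorem for arbitrary subspaces. -/
theorem sid_sum [CompletelyNormalSpace X] (h : StronglyInfDim X) (Z : ℕ → Set X)
    (hZ : (⋃ n, Z n) = univ) : ∃ n, StronglyInfDim (Z n) := by
  by_contra hcon
  push Not at hcon
  obtain ⟨F, -, -, hF⟩ := exists_essFam h
  have key : ∀ n, ∃ L : ℕ → Set X, (∀ k, IsPartition (F.A (Nat.pair n k)) (F.B (Nat.pair n k))
      (L k)) ∧ ∀ x ∈ Z n, ∃ k, x ∉ L k := by
    intro n
    obtain ⟨L, hL1, hL2⟩ := not_sid_sub (Z n) (hcon n) (fun k => F.NA (Nat.pair n k))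
      (fun k => F.NB (Nat.pair n k)) (fun k => F.disj _)
    have h3 := fun k => exists_partition_ext (Z n) (F.hA (Nat.pair n k)) (F.hB (Nat.pair n k))
      (F.oA _) (F.oB _) (F.disj _) (hL1 k)
    choose L' h4 h5 using h3
    refine ⟨L', h4, fun x hx => ?_⟩
    by_contra hcc
    push Not at hcc
    have : (⟨x, hx⟩ : Z n) ∈ ⋂ i, L i := by
      rw [mem_iInter]
      exact fun k => h5 k ⟨x, hx⟩ (hcc k)
    rw [hL2] at this
    exact this
  choose L hL1 hL2 using key
  obtain ⟨x, hx⟩ := hF (fun m => L (Nat.unpair m).1 (Nat.unpair m).2) (fun m => by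
    have := hL1 (Nat.unpair m).1 (Nat.unpair m).2
    simpa only [Nat.pair_unpair] using this)
  have hx0 : x ∈ ⋃ n, Z n := by rw [hZ]; trivial
  obtain ⟨n, hn⟩ := mem_iUnion.mp hx0
  obtain ⟨k, hk⟩ := hL2 n x hn
  apply hk
  have := mem_iInter.mp hx (Nat.pair n k)
  simpa only [Nat.unpair_pair] using this

end extend

end Pool.Agent.Helper9.SID
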