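import Pool.Agent.Helper9.SID.Main1

/-! Subspaces that inject continuously into the Cantor space. -/

open Set Topology TopologicalSpace

namespace Pool.Agent.Helper9.SID

universe u

/-- Every strongly infinite-dimensional space contains a hereditarily strongly
infinite-dimensional and strongly infinite-dimensional subspace that maps injectively and
continuously to the Cantor space. -/
theorem exists_cantor_hsid (X : Type u) [TopologicalSpace X] [MetrizableSpace X]
    [SecondCountableTopology X] (h : StronglyInfDim X) :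
    ∃ Y : Set X, StronglyInfDim Y ∧ HeredSID Y ∧
      ∃ g : Y → (ℕ → Bool), Continuous g ∧ Function.Injective g := by
  obtain ⟨F, K, f, hf, hK⟩ := exists_code_points h
  choose y hy1 hy2 using hK
  have hsid : StronglyInfDim (range y) :=
    K.sid_of_meets _ fun c => ⟨y c, mem_range_self c, hy2 c⟩
  obtain ⟨S, -, hS1, hS2⟩ := exists_gdelta_hsid (range y) hsid
  have e := homeoImage (range y) S
  have hmem : ∀ z : (Subtype.val '' S : Set X), f z.1 ∈ range jj := by
    rintro ⟨_, ⟨⟨_, c, rfl⟩, -, rfl⟩⟩
    exact ⟨c, (hy1 c).symm⟩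
  have ee : (ℕ → Bool) ≃ₜ range jj :=
    (jj_cont.isClosedEmbedding jj_inj).isEmbedding.toHomeomorph
  refine ⟨Subtype.val '' S, hS1.homeo e, hS2.homeo e,
    fun z => ee.symm ⟨f z.1, hmem z⟩, ?_, ?_⟩
  · exact ee.symm.continuous.comp (Continuous.subtype_mk (hf.comp continuous_subtype_val) _)
  · intro z w hzw
    have h1 : f z.1 = f w.1 := congrArg Subtype.val (ee.symm.injective hzw)
    obtain ⟨_, ⟨⟨_, c, rfl⟩, hzS, rfl⟩⟩ := z
    obtain ⟨_, ⟨⟨_, d, rfl⟩, hwS, rfl⟩⟩ := w
    have h2 : f (y c) = f (y d) := h1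
    rw [hy1, hy1] at h2
    have h3 : c = d := jj_inj h2
    subst h3
    rfl

end Pool.Agent.Helper9.SID
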