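import Pool.Agent.Helper9.SID.Basic

/-! Coding of sequences of partitions by points of the Cantor space. -/

open Set Topology TopologicalSpace

namespace Pool.Agent.Helper9.SID

universe u v

/-- A closed embedding of the Cantor space into the open unit interval. -/
noncomputable def jj (c : ℕ → Bool) : ℝ := 1 / 4 + ((cantorSetHomeomorphNatToBool.symm c : ℝ)) / 2

theorem jj_cont : Continuous jj := by
  unfold jj
  fun_prop

theorem jj_inj : Function.Injective jj := by
  intro a b hab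
  unfold jj at hab
  have h1 : ((cantorSetHomeomorphNatToBool.symm a : ℝ)) = (cantorSetHomeomorphNatToBool.symm b : ℝ) := by
    linarith
  exact cantorSetHomeomorphNatToBool.symm.injective (Subtype.ext h1)

theorem jj_pos (c : ℕ → Bool) : 0 < jj c := by
  have := (cantorSet_subset_unitInterval (cantorSetHomeomorphNatToBool.symm c).2).1
  unfold jj
  linarith

theorem jj_lt (c : ℕ → Bool) : jj c < 1 := by
  have := (cantorSet_subset_unitInterval (cantorSetHomeomorphNatToBool.symm c).2).2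
  unfold jj
  linarith

/-- A uniformly open coding of all sequences of partitions for a family. -/
structure Codes {X : Type u} [TopologicalSpace X] (F : EssFam X) where
  /-- first open sets -/
  U : ℕ → Set ((ℕ → Bool) × X)
  /-- second open sets -/
  V : ℕ → Set ((ℕ → Bool) × X)
  oU : ∀ k, IsOpen (U k)
  oV : ∀ k, IsOpen (V k)
  disj : ∀ k, Disjoint (U k) (V k)
  hA : ∀ k c x, x ∈ F.A k → (c, x) ∈ U k
  hB : ∀ k c x, x ∈ F.B k → (c, x) ∈ V k
  code : ∀ G H : ℕ → Set X, (∀ k, IsOpen (G k)) → (∀ k, IsOpen (H k)) →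
    (∀ k, Disjoint (G k) (H k)) → ∃ c : ℕ → Bool, ∀ k x,
      (x ∈ G k → x ∉ closure (F.NB k) → (c, x) ∈ U k) ∧
      (x ∈ H k → x ∉ closure (F.NA k) → (c, x) ∈ V k)

theorem exists_nat_basis (X : Type u) [TopologicalSpace X] [SecondCountableTopology X] :
    ∃ O : ℕ → Set X, (∀ n, IsOpen (O n)) ∧ ∀ (W : Set X), IsOpen W → ∀ x ∈ W, ∃ n, x ∈ O n ∧
      O n ⊆ W := by
  obtain ⟨b, hb1, -, hb2⟩ := exists_countable_basis X
  obtain ⟨O, hO⟩ := (hb1.insert ∅).exists_eq_range (insert_nonempty _ _)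
  refine ⟨O, fun n => ?_, fun W hW x hx => ?_⟩
  · have : O n ∈ insert ∅ b := by rw [hO]; exact mem_range_self n
    rcases this with h | h
    · rw [h]; exact isOpen_empty
    · exact hb2.isOpen h
  · obtain ⟨v, hv, hxv, hvW⟩ := hb2.exists_subset_of_mem_open hx hW
    have : v ∈ range O := by rw [← hO]; exact mem_insert_of_mem _ hv
    obtain ⟨n, rfl⟩ := this
    exact ⟨n, hxv, hvW⟩

theorem exists_codes {X : Type u} [TopologicalSpace X] [RegularSpace X]
    [SecondCountableTopology X] (F : EssFam X) : Nonempty (Codes F) := by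
  obtain ⟨O, hO1, hO2⟩ := exists_nat_basis X
  let U0 : ℕ → Set ((ℕ → Bool) × X) := fun k => {p | (p.2 ∈ F.NA k ∨
    ∃ n, p.1 (Encodable.encode (k, n, true)) = true ∧ p.2 ∈ O n) ∧ p.2 ∉ closure (F.NB k)}
  let V0 : ℕ → Set ((ℕ → Bool) × X) := fun k => {p | (p.2 ∈ F.NB k ∨
    ∃ n, p.1 (Encodable.encode (k, n, false)) = true ∧ p.2 ∈ O n) ∧ p.2 ∉ closure (F.NA k)}
  have hev : ∀ m : ℕ, IsOpen {p : (ℕ → Bool) × X | p.1 m = true} := by
    intro m
    have : Continuous fun p : (ℕ → Bool) × X => p.1 m := by fun_prop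
    exact (isOpen_discrete ({true} : Set Bool)).preimage this
  have hsnd : ∀ W : Set X, IsOpen W → IsOpen {p : (ℕ → Bool) × X | p.2 ∈ W} := fun W hW =>
    hW.preimage continuous_snd
  have gen : ∀ (W N : Set X) (m : ℕ → ℕ), IsOpen W →
      IsOpen {p : (ℕ → Bool) × X | (p.2 ∈ W ∨ ∃ n, p.1 (m n) = true ∧ p.2 ∈ O n) ∧
        p.2 ∉ closure N} := by
    intro W N m hW
    have e : {p : (ℕ → Bool) × X | (p.2 ∈ W ∨ ∃ n, p.1 (m n) = true ∧ p.2 ∈ O n) ∧
        p.2 ∉ closure N} = ({p | p.2 ∈ W} ∪ ⋃ n, ({p | p.1 (m n) = true} ∩ {p | p.2 ∈ O n})) ∩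
        {p | p.2 ∈ (closure N)ᶜ} := by
      ext p; simp
    rw [e]
    exact ((hsnd W hW).union (isOpen_iUnion fun n => (hev _).inter (hsnd _ (hO1 n)))).inter
      (hsnd _ isClosed_closure.isOpen_compl)
  have oU0 : ∀ k, IsOpen (U0 k) := fun k => gen _ _ _ (F.oA k)
  have oV0 : ∀ k, IsOpen (V0 k) := fun k => gen _ _ _ (F.oB k)
  have key : ∀ k, ∃ U V : Set ((ℕ → Bool) × X), IsOpen U ∧ IsOpen V ∧ Disjoint U V ∧
      U0 k \ V0 k ⊆ U ∧ V0 k \ U0 k ⊆ V := by
    intro k
    have h1 : Disjoint (closure (U0 k \ V0 k)) (V0 k \ U0 k) := by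
      rw [Set.disjoint_left]
      intro x hx hx2
      obtain ⟨y, hy1, hy2⟩ := mem_closure_iff.mp hx (V0 k) (oV0 k) hx2.1
      exact hy2.2 hy1
    have h2 : Disjoint (U0 k \ V0 k) (closure (V0 k \ U0 k)) := by
      rw [Set.disjoint_right]
      intro x hx hx2
      obtain ⟨y, hy1, hy2⟩ := mem_closure_iff.mp hx (U0 k) (oU0 k) hx2.1
      exact hy2.2 hy1
    obtain ⟨G1, H1, hG1, hH1, hs, ht, hGH⟩ := separatedNhds_iff_disjoint.mpr
      (completely_normal h1 h2)
    exact ⟨G1, H1, hG1, hH1, hGH, hs, ht⟩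
  choose U V oU oV dUV hU hV using key
  refine ⟨⟨U, V, oU, oV, dUV, ?_, ?_, ?_⟩⟩
  · intro k c x hx
    apply hU k
    have hx1 := F.hA k hx
    refine ⟨⟨Or.inl hx1, fun h => ?_⟩, fun h => ?_⟩
    · exact Set.disjoint_left.mp (F.disj k) (subset_closure hx1) h
    · exact h.2 (subset_closure hx1)
  · intro k c x hx
    apply hV k
    have hx1 := F.hB k hx
    refine ⟨⟨Or.inl hx1, fun h => ?_⟩, fun h => ?_⟩
    · exact Set.disjoint_right.mp (F.disj k) (subset_closure hx1) h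
    · exact h.2 (subset_closure hx1)
  · intro G H hG hH hGH
    classical
    let t : ℕ × ℕ × Bool → Bool := fun p => decide (O p.2.1 ⊆ if p.2.2 = true then G p.1 else H p.1)
    let c : ℕ → Bool := fun m => match (Encodable.decode m : Option (ℕ × ℕ × Bool)) with
      | some p => t p
      | none => false
    have hc : ∀ p : ℕ × ℕ × Bool, c (Encodable.encode p) = t p := by
      intro p
      show (match (Encodable.decode (Encodable.encode p) : Option (ℕ × ℕ × Bool)) with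
        | some p => t p
        | none => false) = t p
      rw [Encodable.encodek]
    refine ⟨c, fun k x => ⟨fun hx hxn => hU k ?_, fun hx hxn => hV k ?_⟩⟩
    · obtain ⟨n, hn1, hn2⟩ := hO2 (G k) (hG k) x hx
      refine ⟨⟨Or.inr ⟨n, ?_, hn1⟩, hxn⟩, ?_⟩
      · show c (Encodable.encode (k, n, true)) = true
        rw [hc]
        simpa [t] using hn2
      · rintro ⟨h1 | ⟨m, hm1, hm2⟩, h2⟩
        · exact hxn (subset_closure h1)
        · have hm3 : c (Encodable.encode (k, m, false)) = true := hm1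
          rw [hc] at hm3
          have hm4 : O m ⊆ H k := by simpa [t] using hm3
          exact Set.disjoint_left.mp (hGH k) hx (hm4 hm2)
    · obtain ⟨n, hn1, hn2⟩ := hO2 (H k) (hH k) x hx
      refine ⟨⟨Or.inr ⟨n, ?_, hn1⟩, hxn⟩, ?_⟩
      · show c (Encodable.encode (k, n, false)) = true
        rw [hc]
        simpa [t] using hn2
      · rintro ⟨h1 | ⟨m, hm1, hm2⟩, h2⟩
        · exact hxn (subset_closure h1)
        · have hm3 : c (Encodable.encode (k, m, true)) = true := hm1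
          rw [hc] at hm3
          have hm4 : O m ⊆ G k := by simpa [t] using hm3
          exact Set.disjoint_left.mp (hGH k) (hm4 hm2) hx

section

variable {X : Type u} [TopologicalSpace X] {F : EssFam X}

/-- `x` lies on all partitions coded by `c`. -/
def Codes.On (K : Codes F) (c : ℕ → Bool) (x : X) : Prop := ∀ k, (c, x) ∉ K.U k ∧ (c, x) ∉ K.V k

/-- The partition coded by `c`. -/
def Codes.part (K : Codes F) (c : ℕ → Bool) (k : ℕ) : Set X :=
  {x | (c, x) ∉ K.U k ∧ (c, x) ∉ K.V k}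

theorem Codes.part_isPartition (K : Codes F) (c : ℕ → Bool) (k : ℕ) :
    IsPartition (F.A k) (F.B k) (K.part c k) := by
  have hc : Continuous fun x : X => (c, x) := by fun_prop
  have := IsPartition.of_open (A := F.A k) (B := F.B k) ((K.oU k).preimage hc)
    ((K.oV k).preimage hc) ((K.disj k).preimage _) (fun x hx => K.hA k c x hx)
    (fun x hx => K.hB k c x hx)
  have e : K.part c k = ((fun x : X => (c, x)) ⁻¹' K.U k ∪ (fun x : X => (c, x)) ⁻¹' K.V k)ᶜ := by
    ext x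
    simp [Codes.part]
  rw [e]
  exact this

/-- Any sequence of partitions in a subspace is coded. -/
theorem Codes.exists_code [CompletelyNormalSpace X] (K : Codes F) (Z : Set X) (L : ℕ → Set Z)
    (hL : ∀ k, IsPartition (Subtype.val ⁻¹' closure (F.NA k) : Set Z)
      (Subtype.val ⁻¹' closure (F.NB k)) (L k)) :
    ∃ c, ∀ x : Z, K.On c x → ∀ k, x ∈ L k := by
  have key : ∀ k, ∃ G H : Set X, IsOpen G ∧ IsOpen H ∧ Disjoint G H ∧
      (Subtype.val ⁻¹' closure (F.NA k) : Set Z) ⊆ Subtype.val ⁻¹' G ∧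
      (Subtype.val ⁻¹' closure (F.NB k) : Set Z) ⊆ Subtype.val ⁻¹' H ∧
      (L k)ᶜ = Subtype.val ⁻¹' G ∪ Subtype.val ⁻¹' H := by
    intro k
    obtain ⟨hc, U, V, hU, hV, hUV, h1, h2, h3⟩ := hL k
    obtain ⟨G, H, hG, hH, hGH, rfl, rfl⟩ := exists_open_ext Z hU hV hUV
    exact ⟨G, H, hG, hH, hGH, h1, h2, h3⟩
  choose G H hG hH hGH h1 h2 h3 using key
  obtain ⟨c, hc⟩ := K.code G H hG hH hGH
  refine ⟨c, fun x hx k => ?_⟩
  by_contra hxL
  have hx2 : x ∈ (L k)ᶜ := hxL
  rw [h3 k] at hx2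
  rcases hx2 with hx3 | hx3
  · refine (hx k).1 ((hc k x).1 hx3 fun h => ?_)
    exact Set.disjoint_left.mp (hGH k) hx3 (h2 k (a := x) h)
  · refine (hx k).2 ((hc k x).2 hx3 fun h => ?_)
    exact Set.disjoint_left.mp (hGH k) (h1 k (a := x) h) hx3

/-- A set meeting the intersection of every coded sequence is strongly infinite-dimensional. -/
theorem Codes.sid_of_meets [CompletelyNormalSpace X] (K : Codes F) (T : Set X)
    (hT : ∀ c, ∃ x ∈ T, K.On c x) : StronglyInfDim T := by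
  refine ⟨fun i => Subtype.val ⁻¹' closure (F.NA i), fun i => Subtype.val ⁻¹' closure (F.NB i),
    fun i => ⟨isClosed_closure.preimage continuous_subtype_val,
      isClosed_closure.preimage continuous_subtype_val, (F.disj i).preimage _⟩, fun L hL => ?_⟩
  obtain ⟨c, hc⟩ := K.exists_code T L hL
  obtain ⟨x, hx, hxc⟩ := hT c
  exact ⟨⟨x, hx⟩, mem_iInter.mpr (hc ⟨x, hx⟩ hxc)⟩

/-- The set controlled by the function `f` and the coding. -/
def Codes.Y (K : Codes F) (f : X → ℝ) : Set X := {x | ∀ c, jj c = f x → K.On c x}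

theorem Codes.not_sid_avoids [CompletelyNormalSpace X] (K : Codes F) (f : X → ℝ) (Z : Set X)
    (hZ : Z ⊆ K.Y f) (hn : ¬ StronglyInfDim Z) : ∃ c, ∀ x ∈ Z, f x ≠ jj c := by
  obtain ⟨L, hL1, hL2⟩ := not_sid_sub Z hn F.NA F.NB F.disj
  obtain ⟨c, hc⟩ := K.exists_code Z L hL1
  refine ⟨c, fun x hx hfx => ?_⟩
  have h1 : (⟨x, hx⟩ : Z) ∈ ⋂ i, L i := mem_iInter.mpr (hc ⟨x, hx⟩ (hZ hx c hfx.symm))
  rw [hL2] at h1
  exact h1

theorem isClosed_proj (f : X → ℝ) (hf : Continuous f) (W : Set ((ℕ → Bool) × X)) (hW : IsOpen W) :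
    IsClosed {x : X | ∃ c, jj c = f x ∧ (c, x) ∉ W} := by
  have h1 : IsClosed ({p : (ℕ → Bool) × X | jj p.1 = f p.2} ∩ Wᶜ) := by
    refine IsClosed.inter (isClosed_eq ?_ ?_) hW.isClosed_compl
    · exact jj_cont.comp continuous_fst
    · exact hf.comp continuous_snd
  have h2 := isClosedMap_snd_of_compactSpace _ h1
  convert h2 using 1
  ext x
  constructor
  · rintro ⟨c, h3, h4⟩
    exact ⟨(c, x), ⟨h3, h4⟩, rfl⟩
  · rintro ⟨⟨c, y⟩, ⟨h3, h4⟩, rfl⟩
    exact ⟨c, h3, h4⟩

theorem Codes.isGδ_Y [PseudoMetrizableSpace X] (K : Codes F) (f : X → ℝ) (hf : Continuous f) :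
    IsGδ (K.Y f) := by
  let _ := pseudoMetrizableSpacePseudoMetric X
  have hR : IsClosed {x : X | ∃ c, jj c = f x ∧ (c, x) ∉ (∅ : Set ((ℕ → Bool) × X))} :=
    isClosed_proj f hf ∅ isOpen_empty
  have hF := fun k => isClosed_proj f hf (K.U k ∪ K.V k) ((K.oU k).union (K.oV k))
  have e : K.Y f = ⋂ k, ({x : X | ∃ c, jj c = f x ∧ (c, x) ∉ (∅ : Set ((ℕ → Bool) × X))}ᶜ ∪
      {x : X | ∃ c, jj c = f x ∧ (c, x) ∉ K.U k ∪ K.V k}) := by
    ext x
    simp only [Codes.Y, Codes.On, mem_ofPred_eq, mem_iInter, mem_union, mem_compl_iff,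
      mem_empty_iff_false, not_false_eq_true, and_true, not_or, not_exists]
    constructor
    · intro h k
      by_cases h1 : ∃ c, jj c = f x
      · obtain ⟨c, hc⟩ := h1
        exact Or.inr ⟨c, hc, h c hc k⟩
      · exact Or.inl fun c hc => h1 ⟨c, hc⟩
    · intro h c hc k
      rcases h k with h1 | ⟨d, hd, h2⟩
      · exact absurd hc (h1 c)
      · have : d = c := jj_inj (hd.trans hc.symm)
        subst this
        exact h2
  rw [e]
  exact IsGδ.iInter fun k => hR.isOpen_compl.isGδ.union (hF k).isGδ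

theorem Codes.exists_partitions_Y [CompletelyNormalSpace X] (K : Codes F) (f : X → ℝ)
    (hf : Continuous f) (cA : ∀ k, IsClosed (F.A k)) (cB : ∀ k, IsClosed (F.B k)) :
    ∃ S : ℕ → Set X, (∀ k, IsPartition (F.A k) (F.B k) (S k)) ∧
      ∀ x, (∀ k, x ∈ S k) → x ∈ K.Y f := by
  have key : ∀ k, ∃ S : Set X, IsPartition (F.A k) (F.B k) S ∧ ∀ x ∈ S, ∀ c, jj c = f x →
      (c, x) ∉ K.U k ∧ (c, x) ∉ K.V k := by
    intro k
    have hR : IsClosed {x : X | ∃ c, jj c = f x ∧ (c, x) ∉ (∅ : Set ((ℕ → Bool) × X))} :=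
      isClosed_proj f hf ∅ isOpen_empty
    have hFU := isClosed_proj f hf (K.U k) (K.oU k)
    have hFV := isClosed_proj f hf (K.V k) (K.oV k)
    set R := {x : X | ∃ c, jj c = f x ∧ (c, x) ∉ (∅ : Set ((ℕ → Bool) × X))} with hRdef
    set FU := {x : X | ∃ c, jj c = f x ∧ (c, x) ∉ K.U k} with hFUdef
    set FV := {x : X | ∃ c, jj c = f x ∧ (c, x) ∉ K.V k} with hFVdef
    have memR : ∀ x c, jj c = f x → x ∈ R := fun x c h => ⟨c, h, fun h => h⟩
    have notFU : ∀ x c, jj c = f x → x ∉ FU → (c, x) ∈ K.U k := by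
      intro x c h1 h2
      by_contra h3
      exact h2 ⟨c, h1, h3⟩
    have notFV : ∀ x c, jj c = f x → x ∉ FV → (c, x) ∈ K.V k := by
      intro x c h1 h2
      by_contra h3
      exact h2 ⟨c, h1, h3⟩
    have inFU : ∀ x c, jj c = f x → x ∈ FU → (c, x) ∉ K.U k := by
      rintro x c h1 ⟨d, hd1, hd2⟩
      have : d = c := jj_inj (hd1.trans h1.symm)
      subst this
      exact hd2
    have inFV : ∀ x c, jj c = f x → x ∈ FV → (c, x) ∉ K.V k := by
      rintro x c h1 ⟨d, hd1, hd2⟩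
      have : d = c := jj_inj (hd1.trans h1.symm)
      subst this
      exact hd2
    have sub1 : closure (R \ FU) ⊆ FV := by
      refine closure_minimal ?_ hFV
      rintro x ⟨⟨c, hc, -⟩, hx⟩
      exact ⟨c, hc, Set.disjoint_left.mp (K.disj k) (notFU x c hc hx)⟩
    have sub2 : closure (R \ FV) ⊆ FU := by
      refine closure_minimal ?_ hFU
      rintro x ⟨⟨c, hc, -⟩, hx⟩
      exact ⟨c, hc, Set.disjoint_right.mp (K.disj k) (notFV x c hc hx)⟩
    have hABd : ∀ x, x ∈ F.A k → x ∈ F.B k → False := fun x h1 h2 =>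
      Set.disjoint_left.mp (F.disj k) (subset_closure (F.hA k h1)) (subset_closure (F.hB k h2))
    have hAFU : ∀ x, x ∈ F.A k → x ∉ FU := by
      rintro x h1 ⟨c, -, hc⟩
      exact hc (K.hA k c x h1)
    have hBFV : ∀ x, x ∈ F.B k → x ∉ FV := by
      rintro x h1 ⟨c, -, hc⟩
      exact hc (K.hB k c x h1)
    have hAV : ∀ x, x ∈ F.A k → x ∈ R → x ∈ FV := by
      rintro x h1 ⟨c, hc, -⟩
      exact ⟨c, hc, Set.disjoint_left.mp (K.disj k) (K.hA k c x h1)⟩
    have hBU : ∀ x, x ∈ F.B k → x ∈ R → x ∈ FU := by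
      rintro x h1 ⟨c, hc, -⟩
      exact ⟨c, hc, Set.disjoint_right.mp (K.disj k) (K.hB k c x h1)⟩
    have d1 : Disjoint (closure (F.A k ∪ R \ FU)) (F.B k ∪ R \ FV) := by
      rw [closure_union, (cA k).closure_eq, Set.disjoint_left]
      rintro x (h1 | h1) (h2 | h2)
      · exact hABd x h1 h2
      · exact h2.2 (hAV x h1 h2.1)
      · exact hBFV x h2 (sub1 h1)
      · exact h2.2 (sub1 h1)
    have d2 : Disjoint (F.A k ∪ R \ FU) (closure (F.B k ∪ R \ FV)) := by
      rw [closure_union, (cB k).closure_eq, Set.disjoint_right]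
      rintro x (h1 | h1) (h2 | h2)
      · exact hABd x h2 h1
      · exact h2.2 (hBU x h1 h2.1)
      · exact hAFU x h2 (sub2 h1)
      · exact h2.2 (sub2 h1)
    obtain ⟨G, H, hG, hH, hs, ht, hGH⟩ := separatedNhds_iff_disjoint.mpr
      (completely_normal d1 d2)
    refine ⟨(G ∪ H)ᶜ, IsPartition.of_open hG hH hGH (subset_union_left.trans hs)
      (subset_union_left.trans ht), fun x hx c hc => ⟨?_, ?_⟩⟩
    · refine inFU x c hc ?_
      by_contra h1
      exact hx (Or.inl (hs (Or.inr ⟨memR x c hc, h1⟩)))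
    · refine inFV x c hc ?_
      by_contra h1
      exact hx (Or.inr (ht (Or.inr ⟨memR x c hc, h1⟩)))
  choose S hS1 hS2 using key
  exact ⟨S, hS1, fun x hx c hc k => hS2 k x (hx k) c hc⟩

end

end Pool.Agent.Helper9.SID
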