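import Pool.Agent.Helper9.SID.Main2

/-! Countable-dimensional spaces. -/

open Set Topology TopologicalSpace

namespace Pool.Agent.Helper9.SID

universe u v

section

theorem clopen_basis_of_inducing {Z : Type u} {W : Type v} [TopologicalSpace Z]
    [TopologicalSpace W] {e : Z → W} (he : IsInducing e)
    (h : IsTopologicalBasis {s : Set W | IsClopen s}) :
    IsTopologicalBasis {s : Set Z | IsClopen s} := by
  refine isTopologicalBasis_of_isOpen_of_nhds (fun s hs => IsClopen.isOpen hs)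
    (fun a s ha hs => ?_)
  obtain ⟨t, ht, rfl⟩ := he.isOpen_iff.mp hs
  obtain ⟨C, hC, haC, hCt⟩ := h.exists_subset_of_mem_open (a := e a) ha ht
  exact ⟨e ⁻¹' C, hC.preimage he.continuous, haC, preimage_mono hCt⟩

variable {X : Type u} [TopologicalSpace X]

theorem partition_empty [SecondCountableTopology X]
    (h : IsTopologicalBasis {s : Set X | IsClopen s}) {A B : Set X} (hA : IsClosed A)
    (hB : IsClosed B) (hd : Disjoint A B) : IsPartition A B ∅ := by
  have key : ∀ x : X, ∃ C : Set X, IsClopen C ∧ x ∈ C ∧ (Disjoint C A ∨ Disjoint C B) := by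
    intro x
    by_cases hx : x ∈ A
    · obtain ⟨C, hC, haC, hCt⟩ := h.exists_subset_of_mem_open (a := x) (u := Bᶜ)
        (Set.disjoint_left.mp hd hx) hB.isOpen_compl
      exact ⟨C, hC, haC, Or.inr (Set.subset_compl_iff_disjoint_right.mp hCt)⟩
    · obtain ⟨C, hC, haC, hCt⟩ := h.exists_subset_of_mem_open (a := x) (u := Aᶜ)
        hx hA.isOpen_compl
      exact ⟨C, hC, haC, Or.inl (Set.subset_compl_iff_disjoint_right.mp hCt)⟩
  choose C hC1 hC2 hC3 using key
  obtain ⟨s, hs, hcov⟩ := TopologicalSpace.countable_cover_nhds (fun x => (hC1 x).isOpen.mem_nhds (hC2 x))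
  rcases isEmpty_or_nonempty X with hemp | hne
  · have e1 : A = ∅ := Set.eq_empty_of_isEmpty A
    have e2 : B = ∅ := Set.eq_empty_of_isEmpty B
    refine ⟨isClosed_empty, ∅, ∅, isOpen_empty, isOpen_empty, disjoint_bot_left, e1.subset,
      e2.subset, ?_⟩
    exact (Set.eq_empty_of_isEmpty _).trans (Set.union_self _).symm
  have hsne : s.Nonempty := by
    rw [Set.nonempty_iff_ne_empty]
    rintro rfl
    simp only [mem_empty_iff_false, iUnion_of_empty, iUnion_empty] at hcov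
    obtain ⟨x⟩ := hne
    have : x ∈ (∅ : Set X) := by rw [hcov]; trivial
    exact this
  obtain ⟨t, ht⟩ := hs.exists_eq_range hsne
  let D : ℕ → Set X := fun n => C (t n) \ ⋃ m ∈ Finset.range n, C (t m)
  have hDc : ∀ n, IsClopen (D n) := fun n =>
    (hC1 _).diff (isClopen_biUnion_finset fun m _ => hC1 _)
  have hDcov : ∀ x, ∃ n, x ∈ D n := by
    intro x
    have hx : x ∈ ⋃ y ∈ s, C y := by rw [hcov]; trivial
    obtain ⟨y, hy, hxy⟩ := mem_iUnion₂.mp hx
    rw [ht] at hy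
    obtain ⟨k, rfl⟩ := hy
    have hex : ∃ n, x ∈ C (t n) := ⟨k, hxy⟩
    classical
    refine ⟨Nat.find hex, Nat.find_spec hex, ?_⟩
    rw [mem_iUnion₂]
    rintro ⟨m, hm, hxm⟩
    exact Nat.find_min hex (Finset.mem_range.mp hm) hxm
  have hDd : ∀ m n, m ≠ n → Disjoint (D m) (D n) := by
    have aux : ∀ m n, m < n → Disjoint (D m) (D n) := by
      intro m n hmn
      rw [Set.disjoint_left]
      intro x hx hx2
      exact hx2.2 (mem_iUnion₂.mpr ⟨m, Finset.mem_range.mpr hmn, hx.1⟩)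
    intro m n hmn
    rcases lt_or_gt_of_ne hmn with h1 | h1
    · exact aux m n h1
    · exact (aux n m h1).symm
  refine ⟨isClosed_empty, ⋃ n ∈ {n | ¬ Disjoint (D n) A}, D n, ⋃ n ∈ {n | Disjoint (D n) A}, D n,
    isOpen_biUnion fun n _ => (hDc n).isOpen, isOpen_biUnion fun n _ => (hDc n).isOpen, ?_, ?_,
    ?_, ?_⟩
  · rw [Set.disjoint_left]
    intro x hx hx2
    obtain ⟨m, hm, hxm⟩ := mem_iUnion₂.mp hx
    obtain ⟨n, hn, hxn⟩ := mem_iUnion₂.mp hx2
    by_cases hmn : m = n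
    · subst hmn
      exact hm hn
    · exact Set.disjoint_left.mp (hDd m n hmn) hxm hxn
  · intro x hx
    obtain ⟨n, hn⟩ := hDcov x
    exact mem_iUnion₂.mpr ⟨n, fun h => Set.disjoint_left.mp h hn hx, hn⟩
  · intro x hx
    obtain ⟨n, hn⟩ := hDcov x
    refine mem_iUnion₂.mpr ⟨n, ?_, hn⟩
    show Disjoint (D n) A
    rcases hC3 (t n) with h1 | h1
    · exact h1.mono_left sdiff_subset
    · exact absurd hx (Set.disjoint_left.mp h1 hn.1)
  · rw [compl_empty]
    symm
    rw [Set.eq_univ_iff_forall]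
    intro x
    obtain ⟨n, hn⟩ := hDcov x
    by_cases h1 : Disjoint (D n) A
    · exact Or.inr (mem_iUnion₂.mpr ⟨n, h1, hn⟩)
    · exact Or.inl (mem_iUnion₂.mpr ⟨n, h1, hn⟩)

theorem not_sid_of_clopen_basis [SecondCountableTopology X]
    (h : IsTopologicalBasis {s : Set X | IsClopen s}) : ¬ StronglyInfDim X := by
  rintro ⟨A, B, h1, h2⟩
  obtain ⟨x, hx⟩ := h2 (fun _ => ∅) (fun i => partition_empty h (h1 i).1 (h1 i).2.1 (h1 i).2.2)
  exact (mem_iInter.mp hx 0)

/-- Subsets of countable-dimensional spaces are not strongly infinite-dimensional. -/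
theorem CountableDim.not_sid [MetrizableSpace X] [SecondCountableTopology X]
    (h : CountableDim X) (S : Set X) : ¬ StronglyInfDim S := by
  intro hS
  obtain ⟨D, hD1, hD2⟩ := h
  obtain ⟨n, hn⟩ := sid_sum hS (fun n => (Subtype.val ⁻¹' D n : Set S)) (by
    rw [← preimage_iUnion, hD1, preimage_univ])
  obtain ⟨A, B, h1, h2⟩ := hn
  have hne : Nonempty (Subtype.val ⁻¹' D n : Set S) := by
    by_contra hcon
    have hemp : IsEmpty (Subtype.val ⁻¹' D n : Set S) := not_nonempty_iff.mp hcon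
    obtain ⟨x, -⟩ := h2 (fun _ => ∅) (fun i => ⟨isClosed_empty, ∅, ∅, isOpen_empty, isOpen_empty,
      disjoint_bot_left, (Set.eq_empty_of_isEmpty (A i)).subset,
      (Set.eq_empty_of_isEmpty (B i)).subset,
      (Set.eq_empty_of_isEmpty _).trans (Set.union_self _).symm⟩)
    exact hemp.elim x
  obtain ⟨x, hx⟩ := hne
  have hz := hD2 n ⟨x.1, hx⟩
  have hind : IsInducing (fun z : (Subtype.val ⁻¹' D n : Set S) => (⟨z.1.1, z.2⟩ : D n)) := by
    have h4 : IsInducing ((Subtype.val : S → X) ∘ (Subtype.val :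
        (Subtype.val ⁻¹' D n : Set S) → S)) := IsInducing.subtypeVal.comp IsInducing.subtypeVal
    have h3 : IsInducing ((Subtype.val : D n → X) ∘ fun z : (Subtype.val ⁻¹' D n : Set S) =>
        (⟨z.1.1, z.2⟩ : D n)) := h4
    exact IsInducing.of_comp (Continuous.subtype_mk
      (continuous_subtype_val.comp continuous_subtype_val) _) continuous_subtype_val h3
  exact not_sid_of_clopen_basis (clopen_basis_of_inducing hind hz.2) ⟨A, B, h1, h2⟩

/-- A zero-dimensional subspace is contained in a zero-dimensional G-delta subspace. -/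
theorem exists_gdelta_zeroDim [MetrizableSpace X] [SecondCountableTopology X] (D : Set X)
    (hD : IsTopologicalBasis {s : Set D | IsClopen s}) :
    ∃ E : Set X, D ⊆ E ∧ IsGδ E ∧ IsTopologicalBasis {s : Set E | IsClopen s} := by
  let _ := metrizableSpaceMetric X
  have key : ∀ (n : ℕ) (x : D), ∃ G H : Set X, IsOpen G ∧ IsOpen H ∧ Disjoint G H ∧
      D ⊆ G ∪ H ∧ x.1 ∈ G ∧ G ⊆ Metric.ball x.1 (1 / ((n : ℝ) + 1)) := by
    intro n x
    have hpos : (0 : ℝ) < 1 / ((n : ℝ) + 1) := by positivity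
    obtain ⟨C, hC, hxC, hCs⟩ := hD.exists_subset_of_mem_open (a := x)
      (u := Subtype.val ⁻¹' Metric.ball x.1 (1 / ((n : ℝ) + 1)))
      (Metric.mem_ball_self hpos) (Metric.isOpen_ball.preimage continuous_subtype_val)
    obtain ⟨G, H, hG, hH, hGH, h1, h2⟩ := exists_open_ext D (IsClopen.isOpen hC)
      (IsClopen.compl hC).isOpen disjoint_compl_right
    refine ⟨G ∩ Metric.ball x.1 (1 / ((n : ℝ) + 1)), H, hG.inter Metric.isOpen_ball, hH,
      hGH.mono_left inter_subset_left, ?_, ?_, inter_subset_right⟩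
    · intro y hy
      by_cases hyC : (⟨y, hy⟩ : D) ∈ C
      · have h3 : (⟨y, hy⟩ : D) ∈ (Subtype.val ⁻¹' G : Set D) := by rw [h1]; exact hyC
        exact Or.inl ⟨h3, hCs hyC⟩
      · have h3 : (⟨y, hy⟩ : D) ∈ (Subtype.val ⁻¹' H : Set D) := by rw [h2]; exact hyC
        exact Or.inr h3
    · have h3 : x ∈ (Subtype.val ⁻¹' G : Set D) := by rw [h1]; exact hxC
      exact ⟨h3, Metric.mem_ball_self hpos⟩
  choose G H hG hH hGH hcov hxG hball using key
  have hc : ∀ n : ℕ, ∃ s : Set D, s.Countable ∧ ∀ y : D, ∃ x ∈ s, y.1 ∈ G n x := by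
    intro n
    obtain ⟨s, hs1, hs2⟩ := TopologicalSpace.countable_cover_nhds (fun x : D =>
      ((hG n x).preimage continuous_subtype_val).mem_nhds (show x ∈ Subtype.val ⁻¹' G n x from
        hxG n x))
    refine ⟨s, hs1, fun y => ?_⟩
    have hy : y ∈ ⋃ x ∈ s, (Subtype.val ⁻¹' G n x : Set D) := by rw [hs2]; trivial
    obtain ⟨x, hx, hyx⟩ := mem_iUnion₂.mp hy
    exact ⟨x, hx, hyx⟩
  choose s hs1 hs2 using hc
  let E : Set X := (⋂ n, ⋃ x ∈ s n, G n x) ∩ ⋂ n, ⋂ x ∈ s n, (G n x ∪ H n x)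
  refine ⟨E, ?_, ?_, ?_⟩
  · intro y hy
    refine ⟨mem_iInter.mpr fun n => ?_, mem_iInter.mpr fun n => mem_iInter₂.mpr fun x _ =>
      hcov n x hy⟩
    obtain ⟨x, hx, hyx⟩ := hs2 n ⟨y, hy⟩
    exact mem_iUnion₂.mpr ⟨x, hx, hyx⟩
  · refine IsGδ.inter (IsGδ.iInter fun n => (isOpen_biUnion fun x _ => hG n x).isGδ) ?_
    exact IsGδ.iInter fun n => IsGδ.biInter (hs1 n) fun x _ =>
      ((hG n x).union (hH n x)).isGδ
  · refine isTopologicalBasis_of_isOpen_of_nhds (fun s hs => IsClopen.isOpen hs)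
      (fun a W ha hW => ?_)
    obtain ⟨W0, hW0, rfl⟩ := isOpen_induced_iff.mp hW
    obtain ⟨ε, hε, hball2⟩ := Metric.isOpen_iff.mp hW0 a.1 ha
    obtain ⟨n, hn⟩ := exists_nat_one_div_lt (half_pos hε)
    obtain ⟨x, hx, hax⟩ := mem_iUnion₂.mp (mem_iInter.mp a.2.1 n)
    refine ⟨Subtype.val ⁻¹' G n x, ⟨?_, (hG n x).preimage continuous_subtype_val⟩, hax, ?_⟩
    · have e : (Subtype.val ⁻¹' G n x : Set E) = (Subtype.val ⁻¹' H n x)ᶜ := by
        ext z
        constructor
        · intro hz hz2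
          exact Set.disjoint_left.mp (hGH n x) hz hz2
        · intro hz
          rcases mem_iInter₂.mp (mem_iInter.mp z.2.2 n) x hx with h1 | h1
          · exact h1
          · exact absurd h1 hz
      rw [e]
      exact ((hH n x).preimage continuous_subtype_val).isClosed_compl
    · intro z hz
      apply hball2
      have h1 := hball n x hz
      have h2 := hball n x hax
      rw [Metric.mem_ball] at h1 h2 ⊢
      have h3 := dist_triangle_right z.1 a.1 x.1
      linarith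

theorem CountableDim.sigmaTD [MetrizableSpace X] [SecondCountableTopology X]
    (h : CountableDim X) : SigmaTD X := by
  obtain ⟨D, hD1, hD2⟩ := h
  have key : ∀ i, ∃ E : Set X, D i ⊆ E ∧ IsGδ E ∧ TotallyDisconnectedSpace E := by
    intro i
    rcases (D i).eq_empty_or_nonempty with h1 | h1
    · refine ⟨∅, by rw [h1], IsGδ.empty, ?_⟩
      exact ⟨fun S _ _ x => (x.2).elim⟩
    · obtain ⟨E, h2, h3, h4⟩ := exists_gdelta_zeroDim (D i) (hD2 i h1).2
      refine ⟨E, h2, h3, td_of_zeroDim ⟨?_, h4⟩⟩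
      obtain ⟨x, hx⟩ := h1
      exact ⟨⟨x, h2 hx⟩⟩
  choose E h1 h2 h3 using key
  refine ⟨E, ?_, fun i => ⟨h2 i, h3 i⟩⟩
  rw [Set.eq_univ_iff_forall]
  intro x
  have hx : x ∈ ⋃ i, D i := by rw [hD1]; trivial
  obtain ⟨i, hi⟩ := mem_iUnion.mp hx
  exact mem_iUnion.mpr ⟨i, h1 i hi⟩

end

end Pool.Agent.Helper9.SID
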