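import Pool.Agent.Helper9.SID.Coding

/-! Hereditarily strongly infinite-dimensional G-delta subspaces. -/

open Set Topology TopologicalSpace

namespace Pool.Agent.Helper9.SID

universe u v

section

variable {X : Type u} [TopologicalSpace X]

/-- Reindexed family. -/
def EssFam.sub (F : EssFam X) (σ : ℕ → ℕ) : EssFam X where
  A := fun k => F.A (σ k)
  B := fun k => F.B (σ k)
  NA := fun k => F.NA (σ k)
  NB := fun k => F.NB (σ k)
  hA := fun k => F.hA (σ k)
  hB := fun k => F.hB (σ k)
  oA := fun k => F.oA (σ k)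
  oB := fun k => F.oB (σ k)
  disj := fun k => F.disj (σ k)

/-- Countably many functions separating points from closed sets. -/
theorem exists_sep_functions (X : Type u) [TopologicalSpace X] [RegularSpace X]
    [SecondCountableTopology X] :
    ∃ f : ℕ → X → ℝ, (∀ i, Continuous (f i)) ∧ ∀ (W : Set X), IsOpen W → ∀ x ∈ W,
      ∃ i, f i x = 0 ∧ ∀ y, y ∉ W → f i y = 1 := by
  obtain ⟨O, hO1, hO2⟩ := exists_nat_basis X
  have key : ∀ p : ℕ × ℕ, ∃ f : X → ℝ, Continuous f ∧ (closure (O p.1) ⊆ O p.2 →
      (∀ x ∈ O p.1, f x = 0) ∧ ∀ y, y ∉ O p.2 → f y = 1) := by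
    intro p
    by_cases h : closure (O p.1) ⊆ O p.2
    · obtain ⟨f, hf0, hf1, -⟩ := exists_continuous_zero_one_of_isClosed (X := X)
        (isClosed_closure (s := O p.1)) (hO1 p.2).isClosed_compl
        (Set.disjoint_left.mpr fun x hx hx2 => hx2 (h hx))
      exact ⟨f, f.continuous, fun _ => ⟨fun x hx => hf0 (subset_closure hx), fun y hy => hf1 hy⟩⟩
    · exact ⟨fun _ => 0, continuous_const, fun h2 => absurd h2 h⟩
  choose f hf1 hf2 using key
  refine ⟨fun i => f (Nat.unpair i), fun i => hf1 _, fun W hW x hx => ?_⟩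
  obtain ⟨m, hm1, hm2⟩ := hO2 W hW x hx
  obtain ⟨V, hV1, hV2, hV3⟩ := exists_mem_nhds_isClosed_subset ((hO1 m).mem_nhds hm1)
  obtain ⟨n, hn1, hn2⟩ := hO2 (interior V) isOpen_interior x (mem_interior_iff_mem_nhds.mpr hV1)
  have h1 : closure (O n) ⊆ O m :=
    (closure_minimal (hn2.trans interior_subset) hV2).trans hV3
  obtain ⟨h2, h3⟩ := hf2 (n, m) h1
  refine ⟨Nat.pair n m, ?_, fun y hy => ?_⟩
  · show f (Nat.unpair (Nat.pair n m)) x = 0
    rw [Nat.unpair_pair]
    exact h2 x hn1
  · show f (Nat.unpair (Nat.pair n m)) y = 1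
    rw [Nat.unpair_pair]
    exact h3 y fun h4 => hy (hm2 h4)

/-- A subset of a subspace, transported to the ambient space. -/
noncomputable def homeoImage (Y : Set X) (S : Set Y) : S ≃ₜ (Subtype.val '' S : Set X) :=
  IsEmbedding.subtypeVal.homeomorphImage S

theorem isGδ_image_val {Y : Set X} (hY : IsGδ Y) {S : Set Y} (hS : IsGδ S) :
    IsGδ (Subtype.val '' S : Set X) := by
  obtain ⟨T, hT1, hT2, rfl⟩ := hS
  have h1 : ∀ t : T, ∃ G : Set X, IsOpen G ∧ Subtype.val ⁻¹' G = (t : Set Y) := fun t =>
    isOpen_induced_iff.mp (hT1 _ t.2)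
  choose G hG1 hG2 using h1
  have e : (Subtype.val '' ⋂₀ T : Set X) = Y ∩ ⋂ t : T, G t := by
    ext x
    simp only [mem_image, mem_sInter, Subtype.exists, exists_and_right, exists_eq_right,
      mem_inter_iff, mem_iInter]
    constructor
    · rintro ⟨h2, h3⟩
      refine ⟨h2, fun t => ?_⟩
      have := h3 _ t.2
      rw [← hG2 t] at this
      exact this
    · rintro ⟨h2, h3⟩
      refine ⟨h2, fun t ht => ?_⟩
      have h4 : (⟨x, h2⟩ : Y) ∈ (Subtype.val ⁻¹' G ⟨t, ht⟩ : Set Y) := h3 ⟨t, ht⟩
      rw [hG2 ⟨t, ht⟩] at h4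
      exact h4
  rw [e]
  have : Countable T := hT2.to_subtype
  exact hY.inter (IsGδ.iInter_of_isOpen hG1)

theorem exists_gdelta_hsid (X : Type u) [TopologicalSpace X] [MetrizableSpace X]
    [SecondCountableTopology X] (h : StronglyInfDim X) :
    ∃ Y : Set X, IsGδ Y ∧ StronglyInfDim Y ∧ HeredSID Y := by
  obtain ⟨F, cA, cB, hF⟩ := exists_essFam h
  obtain ⟨f, hf1, hf2⟩ := exists_sep_functions X
  have hK : ∀ i, Nonempty (Codes (F.sub (Nat.pair i))) := fun i => exists_codes _
  let K : ∀ i, Codes (F.sub (Nat.pair i)) := fun i => (hK i).some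
  let Y : Set X := ⋂ i, (K (i + 1)).Y (f i)
  refine ⟨Y, IsGδ.iInter fun i => (K (i + 1)).isGδ_Y (f i) (hf1 i), ?_, ?_⟩
  · refine (K 0).sid_of_meets Y fun c => ?_
    have hS := fun i => (K (i + 1)).exists_partitions_Y (f i) (hf1 i) (fun k => cA _)
      (fun k => cB _)
    choose S hS1 hS2 using hS
    obtain ⟨x, hx⟩ := hF (fun m => match (Nat.unpair m).1 with
      | 0 => (K 0).part c (Nat.unpair m).2
      | i + 1 => S i (Nat.unpair m).2) (fun m => by
        have e : m = Nat.pair (Nat.unpair m).1 (Nat.unpair m).2 := (Nat.pair_unpair m).symm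
        rcases hm : (Nat.unpair m).1 with _ | i
        · have h1 := (K 0).part_isPartition c (Nat.unpair m).2
          have h2 : (F.sub (Nat.pair 0)).A (Nat.unpair m).2 = F.A m := by
            show F.A (Nat.pair 0 (Nat.unpair m).2) = F.A m
            rw [← hm, Nat.pair_unpair]
          have h3 : (F.sub (Nat.pair 0)).B (Nat.unpair m).2 = F.B m := by
            show F.B (Nat.pair 0 (Nat.unpair m).2) = F.B m
            rw [← hm, Nat.pair_unpair]
          rw [h2, h3] at h1
          exact h1
        · have h1 := hS1 i (Nat.unpair m).2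
          have h2 : (F.sub (Nat.pair (i + 1))).A (Nat.unpair m).2 = F.A m := by
            show F.A (Nat.pair (i + 1) (Nat.unpair m).2) = F.A m
            rw [← hm, Nat.pair_unpair]
          have h3 : (F.sub (Nat.pair (i + 1))).B (Nat.unpair m).2 = F.B m := by
            show F.B (Nat.pair (i + 1) (Nat.unpair m).2) = F.B m
            rw [← hm, Nat.pair_unpair]
          rw [h2, h3] at h1
          exact h1)
    rw [mem_iInter] at hx
    refine ⟨x, mem_iInter.mpr fun i => hS2 i x fun k => ?_, fun k => ?_⟩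
    · have := hx (Nat.pair (i + 1) k)
      simpa only [Nat.unpair_pair] using this
    · have := hx (Nat.pair 0 k)
      simp only [Nat.unpair_pair] at this
      exact this
  · intro S hS
    by_cases hn : StronglyInfDim S
    · exact Or.inr hn
    left
    have e1 := homeoImage Y S
    have hn2 : ¬ StronglyInfDim (Subtype.val '' S : Set X) := fun h => hn (h.homeo e1.symm)
    have key := fun i => (K (i + 1)).not_sid_avoids (f i) (Subtype.val '' S : Set X)
      (by
        rintro _ ⟨y, -, rfl⟩
        exact mem_iInter.mp y.2 i) hn2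
    choose c hc using key
    refine ⟨hS.to_subtype, ?_⟩
    refine isTopologicalBasis_of_isOpen_of_nhds (fun s hs => IsClopen.isOpen hs)
      (fun a s ha hs => ?_)
    obtain ⟨W0, hW0, rfl⟩ := isOpen_induced_iff.mp hs
    obtain ⟨W, hW, rfl⟩ := isOpen_induced_iff.mp hW0
    obtain ⟨i, hi1, hi2⟩ := hf2 W hW a.1.1 ha
    have hcont : Continuous fun z : S => f i z.1.1 := by
      have := hf1 i
      fun_prop
    have hne : ∀ z : S, f i z.1.1 ≠ jj (c i) := fun z => hc i z.1.1 ⟨z.1, z.2, rfl⟩
    refine ⟨{z : S | f i z.1.1 < jj (c i)}, ⟨?_, isOpen_lt hcont continuous_const⟩, ?_, ?_⟩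
    · have e2 : {z : S | f i z.1.1 < jj (c i)} = {z : S | f i z.1.1 ≤ jj (c i)} := by
        ext z
        exact ⟨fun h => le_of_lt (a := f i z.1.1) h, fun h => lt_of_le_of_ne (a := f i z.1.1) h (hne z)⟩
      rw [e2]
      exact isClosed_le hcont continuous_const
    · show f i a.1.1 < jj (c i)
      rw [hi1]
      exact jj_pos _
    · intro z hz
      have hz2 : f i z.1.1 < jj (c i) := hz
      by_contra hzW
      rw [hi2 z.1.1 hzW] at hz2
      exact absurd (jj_lt (c i)) (not_lt.mpr hz2.le)

theorem td_of_fibres {Z : Type v} [TopologicalSpace Z] {g : X → Z} (hg : Continuous g)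
    [TotallyDisconnectedSpace Z] (hf : ∀ z, IsTotallyDisconnected (g ⁻¹' {z})) :
    TotallyDisconnectedSpace X := by
  refine ⟨fun S _ hS => ?_⟩
  rcases S.eq_empty_or_nonempty with rfl | ⟨x, hx⟩
  · exact subsingleton_empty
  have h1 : (g '' S).Subsingleton := (hS.image g hg.continuousOn).subsingleton
  refine hf (g x) S (fun y hy => ?_) hS
  exact h1 ⟨y, hy, rfl⟩ ⟨x, hx, rfl⟩

theorem td_of_injective {Z : Type v} [TopologicalSpace Z] {g : X → Z} (hg : Continuous g)
    [TotallyDisconnectedSpace Z] (hi : Function.Injective g) : TotallyDisconnectedSpace X := by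
  refine td_of_fibres hg fun z => ?_
  intro S hS _ x hx y hy
  exact hi ((hS hx).trans (hS hy).symm)

/-- For a strongly infinite-dimensional space: a coding of all sequences of partitions and a
function such that every code is taken. -/
theorem exists_code_points [CompletelyNormalSpace X] [RegularSpace X] [SecondCountableTopology X]
    (h : StronglyInfDim X) : ∃ (F : EssFam X) (K : Codes F) (f : X → ℝ), Continuous f ∧
      ∀ c, ∃ x, f x = jj c ∧ K.On c x := by
  obtain ⟨F, cA, cB, hF⟩ := exists_essFam h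
  obtain ⟨K⟩ := exists_codes (F.sub Nat.succ)
  obtain ⟨f, hf0, hf1, -⟩ := exists_continuous_zero_one_of_isClosed (cA 0) (cB 0)
    ((F.disj 0).mono ((F.hA 0).trans subset_closure) ((F.hB 0).trans subset_closure))
  refine ⟨F.sub Nat.succ, K, f, f.continuous, fun c => ?_⟩
  obtain ⟨x, hx⟩ := hF (fun m => match m with
    | 0 => ({y | f y < jj c} ∪ {y | jj c < f y})ᶜ
    | k + 1 => K.part c k) (fun m => by
      rcases m with _ | k
      · refine IsPartition.of_open (isOpen_lt f.continuous continuous_const)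
          (isOpen_lt continuous_const f.continuous) ?_ ?_ ?_
        · rw [Set.disjoint_left]
          intro y h1 h2
          exact lt_asymm (a := f y) h1 h2
        · intro y hy
          show f y < jj c
          rw [hf0 hy]
          exact jj_pos c
        · intro y hy
          show jj c < f y
          rw [hf1 hy]
          exact jj_lt c
      · exact K.part_isPartition c k)
  rw [mem_iInter] at hx
  refine ⟨x, ?_, fun k => hx (k + 1)⟩
  have h0 := hx 0
  simp only [mem_compl_iff, mem_union, mem_ofPred_eq, not_or, not_lt] at h0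
  exact le_antisymm h0.2 h0.1

instance : TotallyDisconnectedSpace (range jj) := by
  have e : (ℕ → Bool) ≃ₜ range jj :=
    (jj_cont.isClosedEmbedding jj_inj).isEmbedding.toHomeomorph
  exact e.totallyDisconnectedSpace

/-- Every strongly infinite-dimensional space contains a strongly infinite-dimensional subspace
that maps injectively and continuously to the Cantor set. -/
theorem exists_td_sid (X : Type u) [TopologicalSpace X] [MetrizableSpace X]
    [SecondCountableTopology X] (h : StronglyInfDim X) :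
    ∃ Y : Set X, StronglyInfDim Y ∧ TotallyDisconnectedSpace Y := by
  obtain ⟨F, K, f, hf, hK⟩ := exists_code_points h
  choose y hy1 hy2 using hK
  refine ⟨range y, K.sid_of_meets _ fun c => ⟨y c, mem_range_self c, hy2 c⟩, ?_⟩
  have hcont : Continuous fun z : range y => (⟨f z.1, by
      obtain ⟨c, hc⟩ := z.2
      exact ⟨c, by rw [← hc, hy1 c]⟩⟩ : range jj) :=
    Continuous.subtype_mk (hf.comp continuous_subtype_val) _
  refine td_of_injective hcont ?_
  rintro ⟨_, c, rfl⟩ ⟨_, d, rfl⟩ hcd
  have h1 : f (y c) = f (y d) := congrArg Subtype.val hcd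
  rw [hy1, hy1] at h1
  rw [Subtype.mk.injEq, jj_inj h1]

theorem td_sub (Y : Set X) [TotallyDisconnectedSpace X] : TotallyDisconnectedSpace Y :=
  td_of_injective continuous_subtype_val Subtype.val_injective

theorem q1_of_td (X : Type u) [TopologicalSpace X] [MetrizableSpace X]
    [SecondCountableTopology X] [TotallyDisconnectedSpace X] : Q1Holds X := by
  intro h
  obtain ⟨Y, h1, h2, h3⟩ := exists_gdelta_hsid X h
  exact ⟨Y, h1, h2, td_sub Y, h3⟩

/-- Q1 for a G-delta subspace that is strongly infinite-dimensional gives Q1 for the space. -/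
theorem q1_of_sub {Z : Set X} (hZ : IsGδ Z) (hs : StronglyInfDim Z) (hq : Q1Holds Z) :
    ∃ Y : Set X, Y ⊆ Z ∧ IsGδ Y ∧ StronglyInfDim Y ∧ TotallyDisconnectedSpace Y ∧
      HeredSID Y := by
  obtain ⟨Y, h1, h2, h3, h4⟩ := hq hs
  have e := homeoImage Z Y
  refine ⟨Subtype.val '' Y, ?_, isGδ_image_val hZ h1, h2.homeo e, e.totallyDisconnectedSpace,
    h4.homeo e⟩
  rintro _ ⟨y, -, rfl⟩
  exact y.2

/-- Q1 without the G-delta condition. -/
theorem exists_td_hsid (X : Type u) [TopologicalSpace X] [MetrizableSpace X]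
    [SecondCountableTopology X] (h : StronglyInfDim X) :
    ∃ Y : Set X, StronglyInfDim Y ∧ TotallyDisconnectedSpace Y ∧ HeredSID Y := by
  obtain ⟨Y, h1, h2⟩ := exists_td_sid X h
  obtain ⟨S, -, h4, h5, h6⟩ := q1_of_td Y h1
  have e := homeoImage Y S
  exact ⟨Subtype.val '' S, h4.homeo e, e.totallyDisconnectedSpace, h6.homeo e⟩

end

end Pool.Agent.Helper9.SID
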