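import Pool.Agent.Helper9.SID.Main1

/-! Q1 for perfect maps and for maps with small fibres. -/

open Set Topology TopologicalSpace

namespace Pool.Agent.Helper9.SID

universe u v

section

variable {X : Type u} [TopologicalSpace X]

theorem exists_lexmin {A : Set X} (hA : IsCompact A) (hne : A.Nonempty) (h : ℕ → X → ℝ)
    (hc : ∀ n, Continuous (h n)) :
    ∃ x ∈ A, ∀ n, ∀ y ∈ A, (∀ m < n, h m y = h m x) → h n x ≤ h n y := by
  have step : ∀ (S : {S : Set X // IsCompact S ∧ S.Nonempty}) (n : ℕ), ∃ v : ℝ,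
      (∀ y ∈ S.1, v ≤ h n y) ∧ (S.1 ∩ {y | h n y = v}).Nonempty := by
    intro S n
    obtain ⟨x, hx, hx2⟩ := S.2.1.exists_isMinOn S.2.2 (hc n).continuousOn
    exact ⟨h n x, fun y hy => hx2 hy, x, hx, rfl⟩
  choose v hv1 hv2 using step
  let T : ℕ → {S : Set X // IsCompact S ∧ S.Nonempty} := fun n => Nat.rec ⟨A, hA, hne⟩
    (fun n S => ⟨S.1 ∩ {y | h n y = v S n},
      S.2.1.inter_right (isClosed_eq (hc n) continuous_const), hv2 S n⟩) n
  have hT0 : (T 0).1 = A := rfl
  have hTs : ∀ n, (T (n + 1)).1 = (T n).1 ∩ {y | h n y = v (T n) n} := fun n => rfl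
  have hanti : ∀ n, (T (n + 1)).1 ⊆ (T n).1 := fun n => by
    rw [hTs]
    exact inter_subset_left
  have hclosed : ∀ n, ∃ C : Set X, IsClosed C ∧ (T n).1 = A ∩ C := by
    intro n
    induction n with
    | zero => exact ⟨univ, isClosed_univ, by rw [hT0, inter_univ]⟩
    | succ n ih =>
      obtain ⟨C, hC1, hC2⟩ := ih
      refine ⟨C ∩ {y | h n y = v (T n) n}, hC1.inter (isClosed_eq (hc n) continuous_const), ?_⟩
      rw [hTs, hC2, inter_assoc]
  choose C hC1 hC2 using hclosed
  have hsubA : ∀ n, (T n).1 ⊆ A := fun n => by rw [hC2]; exact inter_subset_left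
  have hmono : ∀ m n, m ≤ n → (T n).1 ⊆ (T m).1 := by
    intro m n hmn
    induction hmn with
    | refl => exact subset_rfl
    | step _ ih => exact (hanti _).trans ih
  have hne2 : (A ∩ ⋂ n, C n).Nonempty := by
    refine hA.inter_iInter_nonempty C hC1 fun u => ?_
    obtain ⟨N, hN⟩ := u.exists_le
    obtain ⟨x, hx⟩ := (T N).2.2
    refine ⟨x, hsubA N hx, ?_⟩
    rw [mem_iInter₂]
    intro i hi
    have := hmono i N (hN i hi) hx
    rw [hC2] at this
    exact this.2
  obtain ⟨x, hxA, hxC⟩ := hne2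
  have hxT : ∀ n, x ∈ (T n).1 := fun n => by
    rw [hC2]
    exact ⟨hxA, mem_iInter.mp hxC n⟩
  have hxv : ∀ n, h n x = v (T n) n := fun n => by
    have := hxT (n + 1)
    rw [hTs] at this
    exact this.2
  refine ⟨x, hxA, fun n y hy hyx => ?_⟩
  have hyT : ∀ k ≤ n, y ∈ (T k).1 := by
    intro k
    induction k with
    | zero => intro _; rw [hT0]; exact hy
    | succ k ih =>
      intro hk
      rw [hTs]
      refine ⟨ih (by omega), ?_⟩
      show h k y = v (T k) k
      rw [hyx k (by omega), hxv]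
  rw [hxv]
  exact hv1 (T n) n y (hyT n le_rfl)

theorem isClosed_perfect_proj {T : Type v} [TopologicalSpace T] {g : X → T} (hg : IsProperMap g)
    {W : Set (X × X)} (hW : IsClosed W) : IsClosed {x : X | ∃ y, (y, x) ∈ W ∧ g y = g x} := by
  have h1 := hg.universally_closed X W hW
  have hc : Continuous fun x : X => (g x, x) := hg.continuous.prodMk continuous_id
  convert h1.preimage hc using 1
  ext x
  constructor
  · rintro ⟨y, hy1, hy2⟩
    exact ⟨(y, x), hy1, Prod.ext hy2 rfl⟩
  · rintro ⟨⟨y, z⟩, hy1, hy2⟩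
    have h2 : z = x := congrArg Prod.snd hy2
    have h3 : g y = g x := congrArg Prod.fst hy2
    subst h2
    exact ⟨y, hy1, h3⟩

/-- Q1 for spaces with a perfect map onto a totally disconnected space. -/
theorem q1_of_proper_td (X : Type u) [TopologicalSpace X] [MetrizableSpace X]
    [SecondCountableTopology X] (T : Type v) [TopologicalSpace T] [T2Space T]
    [TotallyDisconnectedSpace T] (g : X → T) (hg : IsProperMap g) : Q1Holds X := by
  intro hX
  obtain ⟨F, K, f, hf, hK⟩ := exists_code_points hX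
  obtain ⟨h, hh1, hh2⟩ := exists_sep_functions X
  let M : Set X := {x | ∃ c, jj c = f x ∧ K.On c x}
  have hM : IsClosed M := by
    have e : M = {x | ∃ c, jj c = f x ∧ (c, x) ∉ ⋃ k, (K.U k ∪ K.V k)} := by
      ext x
      simp only [M, Codes.On, mem_ofPred_eq, mem_iUnion, mem_union, not_exists, not_or]
    rw [e]
    exact isClosed_proj f hf _ (isOpen_iUnion fun k => (K.oU k).union (K.oV k))
  let Y : Set X := {x | x ∈ M ∧ ∀ n, ∀ y ∈ M, f y = f x → g y = g x → (∀ m < n, h m y = h m x) →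
    h n x ≤ h n y}
  have hYG : IsGδ Y := by
    let _ := metrizableSpaceMetric X
    have e : Y = M ∩ ⋂ n : ℕ, ⋂ q : ℚ, ({x | ∃ y, (y, x) ∈ {p : X × X | p.1 ∈ M ∧
        f p.1 = f p.2 ∧ (∀ m < n, h m p.1 = h m p.2) ∧ h n p.1 ≤ q} ∧ g y = g x}ᶜ ∪
        {x | h n x ≤ q}) := by
      ext x
      simp only [Y, mem_ofPred_eq, mem_inter_iff, mem_iInter, mem_union, mem_compl_iff,
        not_exists, not_and]
      refine and_congr_right fun _ => ⟨fun hx n q => ?_, fun hx n y hy h1 h2 h3 => ?_⟩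
      · by_cases hq : h n x ≤ q
        · exact Or.inr hq
        · left
          rintro y ⟨hy, h1, h3, h4⟩ h2
          exact hq ((hx n y hy h1 h2 h3).trans h4)
      · by_contra hlt
        push Not at hlt
        obtain ⟨q, hq1, hq2⟩ := exists_rat_btwn hlt
        rcases hx n q with h4 | h4
        · exact h4 y ⟨hy, h1, h3, hq1.le⟩ h2
        · exact absurd h4 (not_le.mpr hq2)
    rw [e]
    refine hM.isGδ.inter (IsGδ.iInter fun n => IsGδ.iInter fun q => IsGδ.union ?_ ?_)
    · refine (isClosed_perfect_proj hg ?_).isOpen_compl.isGδ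
      refine (hM.preimage continuous_fst).inter ?_
      refine (isClosed_eq (hf.comp continuous_fst) (hf.comp continuous_snd)).inter ?_
      refine IsClosed.inter ?_ (isClosed_le ((hh1 n).comp continuous_fst) continuous_const)
      have e2 : {p : X × X | ∀ m < n, h m p.1 = h m p.2} =
          ⋂ m : ℕ, ⋂ _ : m < n, {p : X × X | h m p.1 = h m p.2} := by
        ext p; simp
      show IsClosed {p : X × X | ∀ m < n, h m p.1 = h m p.2}
      rw [e2]
      exact isClosed_iInter fun m => isClosed_iInter fun _ =>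
        isClosed_eq ((hh1 m).comp continuous_fst) ((hh1 m).comp continuous_snd)
    · exact (isClosed_le (hh1 n) continuous_const).isGδ
  have hYsid : StronglyInfDim Y := by
    refine K.sid_of_meets Y fun c => ?_
    obtain ⟨x0, hx0, hx0c⟩ := hK c
    have hcomp : IsCompact (g ⁻¹' {g x0} ∩ (M ∩ {y | f y = jj c})) :=
      (hg.isCompact_preimage isCompact_singleton).inter_right
        (hM.inter (isClosed_eq hf continuous_const))
    obtain ⟨x, hx, hmin⟩ := exists_lexmin hcomp ⟨x0, rfl, ⟨c, hx0.symm, hx0c⟩, hx0⟩ h hh1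
    obtain ⟨hxg, hxM, hxf⟩ := hx
    have hxf' : f x = jj c := hxf
    have hxg' : g x = g x0 := hxg
    refine ⟨x, ⟨hxM, fun n y hy h1 h2 h3 => ?_⟩, ?_⟩
    · exact hmin n y ⟨h2.trans hxg', hy, h1.trans hxf'⟩ h3
    · obtain ⟨d, hd1, hd2⟩ := hxM
      have : d = c := jj_inj (hd1.trans hxf')
      rw [this] at hd2
      exact hd2
  have hYtd : TotallyDisconnectedSpace Y := by
    have hcont : Continuous fun z : Y => ((⟨f z.1, by
        obtain ⟨⟨c, hc, -⟩, -⟩ := z.2
        exact ⟨c, hc⟩⟩ : range jj), g z.1) :=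
      (Continuous.subtype_mk (hf.comp continuous_subtype_val) _).prodMk
        (hg.continuous.comp continuous_subtype_val)
    refine td_of_injective hcont ?_
    rintro ⟨x, hx⟩ ⟨y, hy⟩ hxy
    have h1 : f x = f y := congrArg Subtype.val (congrArg Prod.fst hxy)
    have h2 : g x = g y := congrArg Prod.snd hxy
    have h3 : ∀ n, h n x = h n y := by
      intro n
      induction n using Nat.strong_induction_on with
      | _ n ih =>
        exact le_antisymm (hx.2 n y hy.1 h1.symm h2.symm fun m hm => (ih m hm).symm)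
          (hy.2 n x hx.1 h1 h2 fun m hm => ih m hm)
    have h4 : x = y := by
      by_contra hne
      obtain ⟨i, hi1, hi2⟩ := hh2 {y}ᶜ isOpen_compl_singleton x hne
      have := hi2 y (fun h => h rfl)
      rw [← h3 i, hi1] at this
      exact zero_ne_one this
    exact Subtype.ext h4
  obtain ⟨Z, hZ1, hZ2, hZ3, hZ4, hZ5⟩ := q1_of_sub hYG hYsid (q1_of_td Y)
  exact ⟨Z, hZ2, hZ3, hZ4, hZ5⟩

theorem td_of_zeroDim [T2Space X] (h : ZeroDim X) : TotallyDisconnectedSpace X := by
  refine ⟨fun S _ hS => ?_⟩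
  intro x hx y hy
  by_contra hne
  obtain ⟨C, hC, hxC, hCy⟩ := h.2.exists_subset_of_mem_open (a := x) (u := {y}ᶜ) hne
    isOpen_compl_singleton
  exact hCy (hS.subset_isClopen hC ⟨x, hx, hxC⟩ hy) rfl

theorem HeredSID.sub {Y : Type u} [TopologicalSpace Y] (h : HeredSID Y) (S : Set Y) :
    HeredSID S := by
  intro P hP
  have e := homeoImage S P
  rcases h (Subtype.val '' P) (hP.image _) with h1 | h1
  · exact Or.inl (h1.homeo e.symm)
  · exact Or.inr (h1.homeo e.symm)

/-- Every hereditarily strongly infinite-dimensional subspace of `F` is totally disconnected. -/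
def Tame (F : Set X) : Prop :=
  ∀ S : Set X, S ⊆ F → HeredSID S → TotallyDisconnectedSpace S

theorem td_of_hsid_of_no_sid {Y : Type u} [TopologicalSpace Y] [T2Space Y] (h : HeredSID Y)
    (hn : ¬ StronglyInfDim Y) : TotallyDisconnectedSpace Y := by
  rcases isEmpty_or_nonempty Y with h1 | h1
  · exact ⟨fun S _ _ x => (h1.elim x)⟩
  · rcases h univ (@univ_nonempty Y h1) with h2 | h2
    · exact td_of_zeroDim (h2.homeo (Homeomorph.Set.univ Y))
    · exact absurd (h2.homeo (Homeomorph.Set.univ Y)) hn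

theorem tame_of_no_sid [T2Space X] {F : Set X} (h : ∀ S : Set X, S ⊆ F → ¬ StronglyInfDim S) :
    Tame F := fun S hS hH => td_of_hsid_of_no_sid hH (h S hS)

theorem tame_of_td [TotallyDisconnectedSpace X] (F : Set X) : Tame F := fun S _ _ => td_sub S

theorem td_of_hsid_fibres {T : Type v} [TopologicalSpace T]
    [TotallyDisconnectedSpace T] {g : X → T} (hg : Continuous g)
    (hf : ∀ t, Tame (g ⁻¹' {t})) (Y : Set X) (hY : HeredSID Y) :
    TotallyDisconnectedSpace Y := by
  refine td_of_fibres (hg.comp continuous_subtype_val) fun t => ?_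
  have e := homeoImage Y (((g ∘ Subtype.val) ⁻¹' {t} : Set Y))
  have h1 : TotallyDisconnectedSpace (Subtype.val '' ((g ∘ Subtype.val) ⁻¹' {t} : Set Y) : Set X) := by
    refine hf t _ ?_ ((hY.sub _).homeo e)
    rintro _ ⟨y, hy, rfl⟩
    exact hy
  have h2 : TotallyDisconnectedSpace ((g ∘ Subtype.val) ⁻¹' {t} : Set Y) :=
    e.symm.totallyDisconnectedSpace
  exact totallyDisconnectedSpace_subtype_iff.mp h2

/-- Maps to totally disconnected spaces with tame fibres have tame domain. -/
theorem tame_of_fibres {T : Type v} [TopologicalSpace T]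
    [TotallyDisconnectedSpace T] {g : X → T} (hg : Continuous g)
    (hf : ∀ t, Tame (g ⁻¹' {t})) : Tame (univ : Set X) :=
  fun S _ hS => td_of_hsid_fibres hg hf S hS

/-- Q1 for spaces with a continuous map to a totally disconnected space with tame fibres. -/
theorem q1_of_fibres_td (X : Type u) [TopologicalSpace X] [MetrizableSpace X]
    [SecondCountableTopology X] (T : Type v) [TopologicalSpace T]
    [TotallyDisconnectedSpace T] (g : X → T) (hg : Continuous g)
    (hf : ∀ t, Tame (g ⁻¹' {t})) : Q1Holds X := by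
  intro h
  obtain ⟨Y, h1, h2, h3⟩ := exists_gdelta_hsid X h
  exact ⟨Y, h1, h2, td_of_hsid_fibres hg hf Y h3, h3⟩

/-- Covers. -/
theorem q1_cover (X : Type u) [TopologicalSpace X] [MetrizableSpace X]
    [SecondCountableTopology X] (Z : ℕ → Set X) (hs : StronglyInfDim (⋃ n, Z n : Set X))
    (hZ : ∀ n, ¬ StronglyInfDim (Z n) ∨ (IsGδ (Z n) ∧ Q1Holds (Z n))) :
    ∃ Y : Set X, (∃ n, Y ⊆ Z n) ∧ IsGδ Y ∧ StronglyInfDim Y ∧ TotallyDisconnectedSpace Y ∧
      HeredSID Y := by
  obtain ⟨n, hn⟩ := sid_sum hs (fun n => (Subtype.val ⁻¹' Z n : Set (⋃ n, Z n : Set X)))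
    (by
      rw [← preimage_iUnion]
      exact Subtype.coe_preimage_self _)
  have e1 : (Subtype.val '' (Subtype.val ⁻¹' Z n : Set (⋃ n, Z n : Set X)) : Set X) = Z n := by
    rw [Subtype.image_preimage_coe]
    exact inter_eq_right.mpr (subset_iUnion Z n)
  have hn2 : StronglyInfDim (Z n) := by
    have h1 := hn.homeo (homeoImage (⋃ n, Z n : Set X) (Subtype.val ⁻¹' Z n))
    exact h1.homeo (Homeomorph.setCongr e1)
  rcases hZ n with h1 | ⟨h1, h2⟩
  · exact absurd hn2 h1
  · obtain ⟨Y, h3, h4⟩ := q1_of_sub h1 hn2 h2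
    exact ⟨Y, ⟨n, h3⟩, h4⟩

/-- Countable unions of totally disconnected G-delta subspaces. -/
def SigmaTD (B : Type u) [TopologicalSpace B] : Prop :=
  ∃ D : ℕ → Set B, (⋃ i, D i) = univ ∧ ∀ i, IsGδ (D i) ∧ TotallyDisconnectedSpace (D i)

theorem tame_restrict {T : Type v} [TopologicalSpace T] {g : X → T} (D : Set T)
    (hf : ∀ t, Tame (g ⁻¹' {t})) (t : D) :
    Tame ((D.restrictPreimage g) ⁻¹' {t} : Set (g ⁻¹' D)) := by
  intro S hS hH
  have e := homeoImage (g ⁻¹' D) S
  have h1 : TotallyDisconnectedSpace (Subtype.val '' S : Set X) := by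
    refine hf t.1 _ ?_ (hH.homeo e)
    rintro _ ⟨y, hy, rfl⟩
    exact congrArg Subtype.val (hS hy)
  exact e.symm.totallyDisconnectedSpace

theorem q1_of_sigma (X : Type u) [TopologicalSpace X] [MetrizableSpace X]
    [SecondCountableTopology X] (B : Type v) [TopologicalSpace B] [T2Space B]
    (hB : SigmaTD B) (g : X → B) (hg : Continuous g)
    (hf : IsProperMap g ∨ ∀ b, Tame (g ⁻¹' {b})) : Q1Holds X := by
  intro hX
  obtain ⟨D, hD1, hD2⟩ := hB
  have hs : StronglyInfDim (⋃ i, g ⁻¹' (D i) : Set X) := by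
    have e : (⋃ i, g ⁻¹' (D i) : Set X) = univ := by
      rw [← preimage_iUnion, hD1, preimage_univ]
    rw [e]
    exact hX.homeo (Homeomorph.Set.univ X).symm
  obtain ⟨Y, -, hY⟩ := q1_cover X (fun i => g ⁻¹' (D i)) hs (fun i => Or.inr
    ⟨(hD2 i).1.preimage hg, by
      have := (hD2 i).2
      rcases hf with h1 | h1
      · exact q1_of_proper_td _ (D i) ((D i).restrictPreimage g) (h1.restrictPreimage (D i))
      · exact q1_of_fibres_td _ (D i) ((D i).restrictPreimage g) hg.restrictPreimage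
          (tame_restrict (D i) h1)⟩)
  exact ⟨Y, hY⟩

end

end Pool.Agent.Helper9.SID
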